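import Pool.Agent.T9h59.GD.Base

set_option autoImplicit false

/-!
# The system of slots given by the places of degree dividing `r`
-/

namespace Pool.Agent.T9h59.GD

open Polynomial Finset

/-- monic irreducible polynomials of degree dividing `r` -/
def PI (K : Type) [Field K] (r : ℕ) : Type :=
  {π : K[X] // π.Monic ∧ Irreducible π ∧ π.natDegree ∣ r}

variable {K : Type} [Field K]

/-- `π ↦ π^(r / deg π)` -/
noncomputable def pw (r : ℕ) (π : PI K r) : K[X] := π.1 ^ (r / π.1.natDegree)

theorem taylor_add_taylor (t s : K) (f : K[X]) : taylor t (taylor s f) = taylor (t + s) f :=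
  taylor_taylor f t s

theorem irreducible_taylor {f : K[X]} (h : Irreducible f) (t : K) : Irreducible (taylor t f) := by
  have h1 := (MulEquiv.irreducible_iff (taylorEquiv t)).2 h
  exact h1

theorem monic_taylor {f : K[X]} (h : f.Monic) (t : K) : (taylor t f).Monic := by
  rw [Monic, leadingCoeff_taylor]; exact h

/-- translation -/
noncomputable def trE (r : ℕ) (t : K) : PI K r ≃ PI K r where
  toFun π := ⟨taylor t π.1, monic_taylor π.2.1 t, irreducible_taylor π.2.2.1 t, by
    rw [natDegree_taylor]; exact π.2.2.2⟩
  invFun π := ⟨taylor (-t) π.1, monic_taylor π.2.1 _, irreducible_taylor π.2.2.1 _, by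
    rw [natDegree_taylor]; exact π.2.2.2⟩
  left_inv π := by
    apply Subtype.ext
    change taylor (-t) (taylor t π.1) = π.1
    rw [taylor_add_taylor, neg_add_cancel, taylor_zero]
  right_inv π := by
    apply Subtype.ext
    change taylor t (taylor (-t) π.1) = π.1
    rw [taylor_add_taylor, add_neg_cancel, taylor_zero]

theorem PI_finite [Finite K] (r : ℕ) (hr : 0 < r) : Finite (PI K r) := by
  refine Finite.of_injective (β := degreeLT K (r + 1)) (fun π => ⟨π.1, ?_⟩) ?_
  · rw [mem_degreeLT, degree_eq_natDegree π.2.1.ne_zero]
    exact_mod_cast Nat.lt_succ_of_le (Nat.le_of_dvd hr π.2.2.2)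
  · intro π π' h
    exact Subtype.ext (congrArg (fun x : degreeLT K (r + 1) => (x : K[X])) h)

theorem pos_deg {r : ℕ} (π : PI K r) : 0 < π.1.natDegree := π.2.2.1.natDegree_pos

theorem div_pos' {r : ℕ} (hr : 0 < r) (π : PI K r) : 0 < r / π.1.natDegree :=
  Nat.div_pos (Nat.le_of_dvd hr π.2.2.2) (pos_deg π)

theorem pw_ne {r : ℕ} (hr : 0 < r) (π π' : PI K r) (h : π ≠ π') :
    IsCoprime (pw r π) (pw r π') := by
  have h1 : IsCoprime π.1 π'.1 := by
    rw [π.2.2.1.coprime_iff_not_dvd]
    intro hd
    apply h
    apply Subtype.ext
    exact eq_of_monic_of_associated π.2.1 π'.2.1 (π.2.2.1.associated_of_dvd π'.2.2.1 hd)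
  exact h1.pow

theorem pw_taylor (r : ℕ) (t : K) (π : PI K r) : pw r (trE r t π) = taylor t (pw r π) := by
  unfold pw
  change (taylor t π.1) ^ (r / (taylor t π.1).natDegree) = _
  rw [natDegree_taylor, taylor_pow]

theorem sl [Fintype K] [DecidableEq K] (r : ℕ) (hr : 0 < r) [Fintype (PI K r)]
    [DecidableEq (PI K r)] : Sl (pw (K := K) r) r := by
  classical
  refine ⟨hr, ?_, ?_, ?_, ?_, ?_, ?_⟩
  · intro π
    exact π.2.1.pow _
  · intro π
    unfold pw
    rw [natDegree_pow, Nat.div_mul_cancel π.2.2.2]
  · intro π π' h
    exact pw_ne hr π π' h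
  · -- the number of slots
    obtain ⟨p, hp⟩ := CharP.exists K
    haveI : Fact p.Prime := ⟨CharP.char_is_prime K p⟩
    haveI : NeZero r := ⟨hr.ne'⟩
    let L := FiniteField.Extension K p r
    haveI : Fintype L := Fintype.ofFinite _
    have hL : Fintype.card L = Fintype.card K ^ r := by
      have h := FiniteField.natCard_extension K p r
      rw [Nat.card_eq_fintype_card, Nat.card_eq_fintype_card] at h
      exact h
    have hfin : Module.finrank K L = r := FiniteField.finrank_extension K p r
    let m : L → PI K r := fun z => ⟨minpoly K z, minpoly.monic (IsIntegral.of_finite K z),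
      minpoly.irreducible (IsIntegral.of_finite K z), by
        have h := minpoly.degree_dvd (IsIntegral.of_finite K z)
        rwa [hfin] at h⟩
    rw [← hL]
    have h1 := Finset.card_le_mul_card_image (s := (univ : Finset L)) (f := m) r (by
      intro π _
      have h2 : (univ.filter (fun z : L => m z = π)).card ≤
          (π.1.map (algebraMap K L)).roots.toFinset.card := by
        apply Finset.card_le_card
        intro z hz
        simp only [mem_filter, mem_univ, true_and] at hz
        rw [Multiset.mem_toFinset, mem_roots (by
          rw [Ne, Polynomial.map_eq_zero]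
          exact π.2.1.ne_zero)]
        rw [← hz]
        change IsRoot ((minpoly K z).map (algebraMap K L)) z
        rw [IsRoot, eval_map_algebraMap, minpoly.aeval]
      refine h2.trans ((Multiset.toFinset_card_le _).trans ((card_roots' _).trans ?_))
      rw [natDegree_map]
      exact Nat.le_of_dvd hr π.2.2.2)
    rw [Finset.card_univ] at h1
    refine h1.trans ?_
    exact Nat.mul_le_mul_left r (Finset.card_le_univ _)
  · intro t
    exact ⟨trE r t, fun a => pw_taylor r t a⟩
  · -- stabilisers
    intro a b
    have hbd : (b.1.map (algebraMap K (AlgebraicClosure K))).degree ≠ 0 := by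
      rw [degree_map]
      exact b.2.2.1.degree_pos.ne'
    obtain ⟨α, hα⟩ := IsAlgClosed.exists_root _ hbd
    have h1 : (univ.filter (fun t : K => taylor t (pw r a) = pw r b)).card ≤
        (a.1.map (algebraMap K (AlgebraicClosure K))).roots.toFinset.card := by
      apply Finset.card_le_card_of_injOn (fun t => α + algebraMap K (AlgebraicClosure K) t)
      · intro t ht
        simp only [coe_filter, mem_univ, true_and, Set.mem_ofPred_eq] at ht
        simp only [mem_coe]
        rw [Multiset.mem_toFinset, mem_roots (by
          rw [Ne, Polynomial.map_eq_zero]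
          exact a.2.1.ne_zero)]
        have h2 : trE r t a = b := by
          by_contra hne
          have h3 := pw_ne hr _ _ hne
          rw [pw_taylor, ht, isCoprime_self] at h3
          have h4 := natDegree_eq_zero_of_isUnit h3
          unfold pw at h4
          rw [natDegree_pow, Nat.div_mul_cancel b.2.2.2] at h4
          exact hr.ne' h4
        have h3 : taylor t a.1 = b.1 := congrArg Subtype.val h2
        rw [← h3, IsRoot, eval_map_algebraMap, taylor_apply, aeval_comp] at hα
        rw [IsRoot, eval_map_algebraMap]
        simpa using hα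
      · intro t _ t' _ h
        have h2 := add_left_cancel h
        exact (algebraMap K (AlgebraicClosure K)).injective h2
    refine h1.trans ((Multiset.toFinset_card_le _).trans ((card_roots' _).trans ?_))
    rw [natDegree_map]
    exact Nat.le_of_dvd hr a.2.2.2

end Pool.Agent.T9h59.GD
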