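import Pool.Agent.H39R2.Gon.B3
import Pool.Agent.T9h59.GD.Slots

set_option autoImplicit false

/-!
# From the finite field theorem for slots to the vanishing in degree zero
-/

namespace Pool.Agent.T9h59.GD

open Polynomial H39Gon H39Gon.TaskB

variable {k : Type} [Field k]

/-- the class of the polynomial `f` -/
noncomputable def pc (f : k[X]) : UV (RatFunc k) := cl (algebraMap k[X] (RatFunc k) f)

theorem am_ne_zero {f : k[X]} (hf : f ≠ 0) : algebraMap k[X] (RatFunc k) f ≠ 0 :=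
  RatFunc.algebraMap_ne_zero hf

section slots

variable {K : Type} [Field K] {Pl : Type}

/-- the function attached to the slot `a` -/
noncomputable def pp (P : Pl → K[X]) (ι : K →+* k) (a : Pl) : RatFunc k :=
  algebraMap k[X] (RatFunc k) ((P a).map ι)

theorem pp_ne_zero (P : Pl → K[X]) (hP : ∀ a, (P a).Monic) (ι : K →+* k) (a : Pl) :
    pp P ι a ≠ 0 :=
  am_ne_zero (by rw [Ne, Polynomial.map_eq_zero]; exact (hP a).ne_zero)

/-- `m_a = N [P_a] - ∑_b [P_b]` -/
noncomputable def mm [Fintype Pl] (P : Pl → K[X]) (ι : K →+* k) (a : Pl) : UV (RatFunc k) :=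
  mV (fun b => cl (pp P ι b)) a

theorem sum_mm [Fintype Pl] (P : Pl → K[X]) (ι : K →+* k) : ∑ a : Pl, mm P ι a = 0 :=
  sum_mV _

theorem tors_aux [Fintype Pl] (hk : ConstTors k) (P : Pl → K[X]) (hP : ∀ a, (P a).Monic)
    (ι : K →+* k) {d : ℕ} (z : Fin 3 × Fin d → Pl) (l : Fin 3 → Kˣ) (X Y : Fin 3) :
    Tors ((Fintype.card Pl) • cl (-(RatFunc.C (ι (l X)) * ∏ i, pp P ι (z (X, i))) /
      (RatFunc.C (ι (l Y)) * ∏ i, pp P ι (z (Y, i)))) -
      (∑ i, mm P ι (z (X, i)) - ∑ i, mm P ι (z (Y, i)))) := by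
  have hC : ∀ X, (ι (l X : K)) ≠ 0 := fun X => by
    rw [Ne, map_eq_zero]; exact Units.ne_zero _
  have hC' : ∀ X, RatFunc.C (ι (l X : K)) ≠ 0 := fun X => by
    rw [Ne, map_eq_zero]; exact hC X
  have hp : ∀ X, ∏ i : Fin d, pp P ι (z (X, i)) ≠ 0 := fun X =>
    Finset.prod_ne_zero_iff.2 (fun i _ => pp_ne_zero P hP ι _)
  have hA : ∀ X, RatFunc.C (ι (l X : K)) * ∏ i, pp P ι (z (X, i)) ≠ 0 := fun X =>
    mul_ne_zero (hC' X) (hp X)
  have h1 : ∀ X, cl (RatFunc.C (ι (l X : K)) * ∏ i, pp P ι (z (X, i))) =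
      cl (RatFunc.C (ι (l X : K))) + ∑ i, cl (pp P ι (z (X, i))) := fun X => by
    rw [cl_mul (hC' X) (hp X), cl_prod _ _ (fun i _ => pp_ne_zero P hP ι _)]
  have h2 : cl (-(RatFunc.C (ι (l X : K)) * ∏ i, pp P ι (z (X, i))) /
      (RatFunc.C (ι (l Y : K)) * ∏ i, pp P ι (z (Y, i)))) =
      cl (-1 : RatFunc k) + (cl (RatFunc.C (ι (l X : K))) + ∑ i, cl (pp P ι (z (X, i))))
       - (cl (RatFunc.C (ι (l Y : K))) + ∑ i, cl (pp P ι (z (Y, i)))) := by
    rw [neg_div, ← neg_one_mul, cl_mul (by simp) (div_ne_zero (hA X) (hA Y)),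
      cl_div (hA X) (hA Y), h1, h1]
    abel
  have h3 : ∀ X, ∑ i : Fin d, mm P ι (z (X, i)) =
      (Fintype.card Pl) • (∑ i, cl (pp P ι (z (X, i)))) - d • ∑ b : Pl, cl (pp P ι b) := fun X =>
    sum_mV_fin _ (fun i => z (X, i))
  rw [h2, h3, h3]
  exact abs_tors _ _ _ _ _ _ _ _
    ((tors_neg_one.add (tors_C hk _ (hC X))).sub (tors_C hk _ (hC Y)))

theorem core [Fintype Pl] [DecidableEq Pl] {m d : ℕ} (hk : ConstTors k) (P : Pl → K[X])
    (hP : ∀ a, (P a).Monic) (ι : K →+* k)
    (hFT : ∀ Φ : (Fin (m + 2) → Pl) → ℝ,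
      (∀ (t : Fin (m + 2) → Pl) (i : Fin (m + 2)), ∑ x : Pl, Φ (Function.update t i x) = 0) →
      (∀ (σ : Equiv.Perm (Fin (m + 2))) (t : Fin (m + 2) → Pl), σ 0 = 0 → Φ (t ∘ σ) = Φ t) →
      (∀ z : Fin 3 × Fin d → Pl,
        (∃ l : Fin 3 → Kˣ, ∑ X : Fin 3, C (l X : K) * ∏ i : Fin d, P (z (X, i)) = 0) →
        ∑ j : Fin (m + 2) → Fin 3 × Fin d,
          c0 (j 0).1 * (∏ i : Fin (m + 1), c1 (j i.succ).1) * Φ (z ∘ j) = 0) →
      ∀ t, Φ t = 0)
    (Q : MultilinearMap ℤ (fun _ : Fin (m + 1) => UV (RatFunc k)) (UV (RatFunc k) →ₗ[ℤ] ℚ))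
    (hQ : ∀ f : RatFunc k, f ≠ 0 → f ≠ 1 → Q (fun _ => cl f) (cl (1 - f)) = 0)
    (t : Fin (m + 2) → Pl) : PS Q (fun i => mm P ι (t i)) = 0 := by
  refine hFT (fun t => PS Q (fun i => mm P ι (t i))) ?_ ?_ ?_ t
  · intro t i
    have h1 : ∀ x : Pl, (fun j => mm P ι (Function.update t i x j)) =
        Function.update (fun j => mm P ι (t j)) i (mm P ι x) := by
      intro x
      funext j
      by_cases hj : j = i
      · subst hj; simp
      · simp [Function.update_of_ne hj]
    simp only [h1]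
    rw [← MultilinearMap.map_update_sum, sum_mm, MultilinearMap.map_update_zero]
  · intro σ t hσ
    exact PS_symm Q (fun i => mm P ι (t i)) σ hσ
  · rintro z ⟨l, hl⟩
    set A : Fin 3 → RatFunc k := fun X => RatFunc.C (ι (l X : K)) * ∏ i, pp P ι (z (X, i))
      with hA
    have hA0 : ∀ X, A X ≠ 0 := fun X => by
      refine mul_ne_zero ?_ (Finset.prod_ne_zero_iff.2 (fun i _ => pp_ne_zero P hP ι _))
      rw [Ne, map_eq_zero, map_eq_zero]
      exact Units.ne_zero _
    have hsum : A 0 + A 1 + A 2 = 0 := by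
      have h1 := congrArg ((algebraMap k[X] (RatFunc k)).comp (mapRingHom ι)) hl
      rw [map_sum, map_zero, Fin.sum_univ_three] at h1
      simp only [map_mul, map_prod, RingHom.comp_apply, coe_mapRingHom,
        Polynomial.map_C, RatFunc.algebraMap_C] at h1
      exact h1
    set f : RatFunc k := -A 0 / A 2 with hf
    have hf0 : f ≠ 0 := div_ne_zero (neg_ne_zero.2 (hA0 0)) (hA0 2)
    have hf1 : 1 - f = - A 1 / A 2 := by
      rw [hf, eq_div_iff (hA0 2), sub_mul, div_mul_cancel₀ _ (hA0 2)]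
      linear_combination hsum
    have hf2 : f ≠ 1 := by
      intro h
      rw [h, sub_self] at hf1
      exact (div_ne_zero (neg_ne_zero.2 (hA0 1)) (hA0 2)) hf1.symm
    have hq := hQ f hf0 hf2
    have e1 : PS Q (Fin.cons ((Fintype.card Pl) • cl (1 - f))
        (fun _ => (Fintype.card Pl) • cl f) : Fin (m + 2) → UV (RatFunc k)) = 0 := by
      obtain ⟨c, -, hc⟩ := PS_diag Q ((Fintype.card Pl) • cl f) ((Fintype.card Pl) • cl (1 - f))
      rw [hc]
      have h2 : Q (fun _ => (Fintype.card Pl) • cl f) =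
          (∏ _i : Fin (m + 1), (Fintype.card Pl : ℤ)) • Q (fun _ => cl f) := by
        rw [← MultilinearMap.map_smul_univ]
        simp
      rw [h2, LinearMap.smul_apply, map_nsmul, hq]
      simp
    set G : Fin (m + 2) → (Fin 3 × Fin d → ℤ) :=
      Fin.cons (fun s => c0z s.1) (fun _ s => c1z s.1) with hG
    have e2 : PS Q (Fin.cons ((Fintype.card Pl) • cl (1 - f))
        (fun _ => (Fintype.card Pl) • cl f) : Fin (m + 2) → UV (RatFunc k)) =
        PS Q (fun i => ∑ s, G i s • mm P ι (z s)) := by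
      apply map_eq_of_tors
      intro i
      induction i using Fin.cases with
      | zero =>
        simp only [Fin.cons_zero, hG]
        rw [sum_c0z, hf1]
        exact tors_aux hk P hP ι z l 1 2
      | succ j =>
        simp only [Fin.cons_succ, hG]
        rw [sum_c1z, hf]
        exact tors_aux hk P hP ι z l 0 2
    rw [e2, map_lincomb] at e1
    rw [← e1]
    apply Finset.sum_congr rfl
    intro r _
    rw [Fin.prod_univ_succ (fun i => (G i (r i) : ℝ))]
    simp only [hG, Fin.cons_zero, Fin.cons_succ, c0z_cast, c1z_cast]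
    rfl

/-- vanishing for combinations of slots of degree zero -/
theorem deg_zero [Fintype Pl] [DecidableEq Pl] {m : ℕ} (P : Pl → K[X]) (ι : K →+* k)
    (Q : MultilinearMap ℤ (fun _ : Fin (m + 1) => UV (RatFunc k)) (UV (RatFunc k) →ₗ[ℤ] ℚ))
    (hc : ∀ t : Fin (m + 2) → Pl, PS Q (fun i => mm P ι (t i)) = 0)
    (hPl : 0 < Fintype.card Pl)
    (g h : Pl → ℤ) (hg0 : ∑ a, g a = 0) (hh0 : ∑ a, h a = 0) :
    Q (fun _ => ∑ a, g a • cl (pp P ι a)) (∑ a, h a • cl (pp P ι a)) = 0 := by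
  have e1 : PS Q (Fin.cons ((Fintype.card Pl) • ∑ a, h a • cl (pp P ι a))
      (fun _ => (Fintype.card Pl) • ∑ a, g a • cl (pp P ι a)) :
        Fin (m + 2) → UV (RatFunc k)) = 0 := by
    set G : Fin (m + 2) → (Pl → ℤ) :=
      Fin.cons (fun a => h a) (fun _ a => g a) with hG
    have h1 : (Fin.cons ((Fintype.card Pl) • ∑ a, h a • cl (pp P ι a))
      (fun _ => (Fintype.card Pl) • ∑ a, g a • cl (pp P ι a)) :
        Fin (m + 2) → UV (RatFunc k)) =
        (fun i => ∑ a, G i a • mm P ι a) := by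
      funext i
      induction i using Fin.cases with
      | zero => simp only [Fin.cons_zero, hG]; exact smul_mV _ h hh0
      | succ j => simp only [Fin.cons_succ, hG]; exact smul_mV _ g hg0
    rw [h1, map_lincomb]
    apply Finset.sum_eq_zero
    intro r _
    rw [hc r, mul_zero]
  obtain ⟨c, hc0, hc⟩ := PS_diag Q ((Fintype.card Pl) • ∑ a, g a • cl (pp P ι a))
    ((Fintype.card Pl) • ∑ a, h a • cl (pp P ι a))
  rw [hc] at e1
  have h2 : Q (fun _ => (Fintype.card Pl) • ∑ a, g a • cl (pp P ι a)) =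
      (∏ _i : Fin (m + 1), (Fintype.card Pl : ℤ)) • Q (fun _ => ∑ a, g a • cl (pp P ι a)) := by
    rw [← MultilinearMap.map_smul_univ]
    simp
  rw [h2, LinearMap.smul_apply, map_nsmul] at e1
  have h3 : (Fintype.card Pl : ℝ) ≠ 0 := by positivity
  have h4 := (mul_eq_zero.1 e1).resolve_left hc0
  have h5 : (∏ _i : Fin (m + 1), (Fintype.card Pl : ℤ)) • ((Fintype.card Pl) •
    (Q (fun _ => ∑ a, g a • cl (pp P ι a)) (∑ a, h a • cl (pp P ι a)))) = 0 := by
    exact_mod_cast h4
  have h6 : (Fintype.card Pl : ℤ) ≠ 0 := by exact_mod_cast h3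
  rw [smul_eq_zero, smul_eq_zero] at h5
  rcases h5 with h5 | h5 | h5
  · exact absurd h5 (Finset.prod_ne_zero_iff.2 (fun _ _ => h6))
  · exact absurd h5 (by exact_mod_cast h6)
  · exact h5

end slots

/-! ### divisors -/

/-- monic irreducible polynomials -/
def Ir (k : Type) [Field k] : Type := {π : k[X] // π.Monic ∧ Irreducible π}

/-- the class of a divisor -/
noncomputable def D (g : Ir k →₀ ℤ) : UV (RatFunc k) := g.sum (fun π n => n • pc π.1)

/-- the degree of a divisor -/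
noncomputable def dg (g : Ir k →₀ ℤ) : ℤ := g.sum (fun π n => n * π.1.natDegree)

theorem D_add (g h : Ir k →₀ ℤ) : D (g + h) = D g + D h := by
  classical
  unfold D
  rw [Finsupp.sum_add_index']
  · simp
  · intro a b c; exact add_zsmul _ _ _

theorem D_neg (g : Ir k →₀ ℤ) : D (-g) = - D g := by
  unfold D
  rw [Finsupp.sum_neg_index]
  · rw [Finsupp.sum, Finsupp.sum, ← Finset.sum_neg_distrib]
    simp
  · simp

theorem D_single (π : Ir k) : D (Finsupp.single π 1) = pc π.1 := by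
  unfold D
  rw [Finsupp.sum_single_index] <;> simp

theorem D_zero : D (0 : Ir k →₀ ℤ) = 0 := by simp [D]

theorem dg_add (g h : Ir k →₀ ℤ) : dg (g + h) = dg g + dg h := by
  classical
  unfold dg
  rw [Finsupp.sum_add_index']
  · simp
  · intro a b c; ring

theorem dg_neg (g : Ir k →₀ ℤ) : dg (-g) = - dg g := by
  unfold dg
  rw [Finsupp.sum_neg_index]
  · rw [Finsupp.sum, Finsupp.sum, ← Finset.sum_neg_distrib]
    simp
  · simp

theorem dg_single (π : Ir k) : dg (Finsupp.single π 1) = π.1.natDegree := by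
  unfold dg
  rw [Finsupp.sum_single_index] <;> simp

theorem decomp_poly (hk : ConstTors k) (F : k[X]) : F ≠ 0 →
    ∃ g : Ir k →₀ ℤ, Tors (pc F - D g) ∧ dg g = F.natDegree := by
  classical
  refine WfDvdMonoid.induction_on_irreducible (motive := fun F : k[X] => F ≠ 0 →
    ∃ g : Ir k →₀ ℤ, Tors (pc F - D g) ∧ dg g = F.natDegree) F ?_ ?_ ?_
  · intro h; exact absurd rfl h
  · intro u hu _
    obtain ⟨c, hc, rfl⟩ := Polynomial.isUnit_iff.1 hu
    refine ⟨0, ?_, ?_⟩
    · rw [D_zero, sub_zero]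
      unfold pc
      rw [RatFunc.algebraMap_C]
      exact tors_C hk c hc.ne_zero
    · simp [dg]
  · intro a i ha hi ih _
    obtain ⟨g, hg, hdg⟩ := ih ha
    have hi0 : i ≠ 0 := hi.ne_zero
    have hl : i.leadingCoeff ≠ 0 := leadingCoeff_ne_zero.2 hi0
    set c : k := i.leadingCoeff with hcdef
    have hm : (i * C c⁻¹).Monic := monic_mul_leadingCoeff_inv hi0
    have hirr : Irreducible (i * C c⁻¹) := by
      apply (associated_mul_unit_right i (C c⁻¹) ?_).irreducible hi
      exact (isUnit_C.2 (isUnit_iff_ne_zero.2 (inv_ne_zero hl)))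
    let π : Ir k := ⟨i * C c⁻¹, hm, hirr⟩
    have hiπ : i = π.1 * C c := by
      change i = i * C c⁻¹ * C c
      rw [mul_assoc, ← C_mul, inv_mul_cancel₀ hl, C_1, mul_one]
    have hcl : pc (i * a) = pc π.1 + cl (RatFunc.C c) + pc a := by
      unfold pc
      conv_lhs => rw [hiπ]
      rw [map_mul, map_mul, cl_mul, cl_mul, RatFunc.algebraMap_C]
      · exact am_ne_zero hm.ne_zero
      · rw [RatFunc.algebraMap_C, Ne, map_eq_zero]; exact hl
      · exact mul_ne_zero (am_ne_zero hm.ne_zero) (by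
          rw [RatFunc.algebraMap_C, Ne, map_eq_zero]; exact hl)
      · exact am_ne_zero ha
    refine ⟨Finsupp.single π 1 + g, ?_, ?_⟩
    · rw [hcl, D_add, D_single]
      have h := (tors_C hk c hl).add hg
      convert h using 1
      abel
    · rw [dg_add, dg_single, hdg, natDegree_mul hi0 ha]
      have h : π.1.natDegree = i.natDegree := by
        change (i * C c⁻¹).natDegree = i.natDegree
        exact natDegree_mul_C (inv_ne_zero hl)
      rw [h]
      push_cast
      ring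

theorem sum_zsmul' {A ι : Type} [AddCommGroup A] (s : Finset ι) (f : ι → ℤ) (a : A) :
    (∑ i ∈ s, f i) • a = ∑ i ∈ s, f i • a := Finset.sum_smul

/-- `r D g` as a combination of slots -/
theorem smul_D {K : Type} [Field K] (ι : K →+* k) (r : ℕ) (hr : 0 < r) [Fintype (PI K r)]
    (g : Ir k →₀ ℤ)
    (hg : ∀ π ∈ g.support, ∃ a : PI K r, a.1.map ι = π.1) :
    ∃ G : PI K r → ℤ, (∑ a, G a = dg g) ∧ r • D g = ∑ a, G a • cl (pp (pw r) ι a) := by
  classical
  rcases isEmpty_or_nonempty (PI K r) with hE | hE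
  · have hg0 : g = 0 := by
      rw [← Finsupp.support_eq_empty, Finset.eq_empty_iff_forall_notMem]
      intro π hπ
      obtain ⟨a, _⟩ := hg π hπ
      exact hE.elim a
    refine ⟨fun _ => 0, ?_, ?_⟩
    · rw [hg0]; simp [dg]
    · rw [hg0, D_zero, nsmul_zero]
      symm
      exact Finset.sum_eq_zero fun _ _ => zero_zsmul _
  choose! a ha using hg
  refine ⟨fun x => ∑ π ∈ g.support, if a π = x then g π * π.1.natDegree else 0, ?_, ?_⟩
  · rw [Finset.sum_comm]
    unfold dg
    rw [Finsupp.sum]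
    refine Finset.sum_congr rfl fun π _ => ?_
    rw [Finset.sum_ite_eq, if_pos (Finset.mem_univ _)]
  · have h1 : ∑ x : PI K r, (∑ π ∈ g.support, if a π = x then g π * π.1.natDegree else 0) •
        cl (pp (pw r) ι x) = ∑ π ∈ g.support, (g π * π.1.natDegree) • cl (pp (pw r) ι (a π)) := by
      rw [Finset.sum_congr rfl fun x _ => sum_zsmul' g.support
        (fun π => if a π = x then g π * (π.1.natDegree : ℤ) else 0) (cl (pp (pw r) ι x))]
      rw [Finset.sum_comm]
      refine Finset.sum_congr rfl fun π _ => ?_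
      rw [Finset.sum_eq_single (a π)]
      · rw [if_pos rfl]
      · intro x _ hx
        rw [if_neg (Ne.symm hx), zero_smul]
      · intro h; exact absurd (Finset.mem_univ _) h
    have hD : D g = ∑ π ∈ g.support, g π • pc (π.1 : k[X]) := rfl
    rw [h1, hD, ← Finset.sum_nsmul]
    refine Finset.sum_congr rfl fun π hπ => ?_
    have h2 : pp (pw r) ι (a π) = (algebraMap k[X] (RatFunc k) π.1) ^ (r / π.1.natDegree) := by
      unfold pp pw
      rw [Polynomial.map_pow, map_pow, ha π hπ]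
      congr 2
      rw [← ha π hπ, natDegree_map]
    have hdeg : (a π).1.natDegree = π.1.natDegree := by
      rw [← ha π hπ, natDegree_map]
    have hdvd : π.1.natDegree ∣ r := by
      rw [← hdeg]; exact (a π).2.2.2
    rw [h2, cl_pow (am_ne_zero π.2.1.ne_zero)]
    change r • (g π • pc π.1) = (g π * π.1.natDegree) • ((r / π.1.natDegree) • pc π.1)
    obtain ⟨e, he⟩ := hdvd
    have hpos : 0 < π.1.natDegree := π.2.2.natDegree_pos
    have h3 : r / π.1.natDegree = e := by
      conv_lhs => rw [he]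
      exact Nat.mul_div_cancel_left e hpos
    rw [h3]
    conv_lhs => rw [he]
    rw [← natCast_zsmul, ← natCast_zsmul, smul_smul, smul_smul]
    congr 1
    push_cast
    ring

end Pool.Agent.T9h59.GD
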