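import Pool.Agent.H39R2.Gon.Ch

set_option autoImplicit false

/-!
# Systems of slots: places of degree dividing `r`
-/

namespace Pool.Agent.T9h59.GD

open Polynomial H39Gon Finset

/-- A system of slots over a finite field `K`: pairwise coprime monic polynomials `P a` of degree
`r`, stable under translations. -/
structure Sl {K : Type} [Field K] [Fintype K] [DecidableEq K] {Pl : Type} [Fintype Pl]
    [DecidableEq Pl] (P : Pl → K[X]) (r : ℕ) : Prop where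
  r_pos : 0 < r
  monic : ∀ a, (P a).Monic
  deg : ∀ a, (P a).natDegree = r
  cop : ∀ a b, a ≠ b → IsCoprime (P a) (P b)
  card_le : Fintype.card K ^ r ≤ r * Fintype.card Pl
  tr : ∀ t : K, ∃ e : Pl ≃ Pl, ∀ a, P (e a) = taylor t (P a)
  stab : ∀ a b, (univ.filter (fun t : K => taylor t (P a) = P b)).card ≤ r

section sl

variable {K : Type} [Field K] [Fintype K] [DecidableEq K] {Pl : Type} [Fintype Pl]
    [DecidableEq Pl] {P : Pl → K[X]} {r : ℕ}

theorem Sl.inj (h : Sl P r) : Function.Injective P := by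
  intro a b hab
  by_contra hne
  have h1 := h.cop a b hne
  rw [hab, isCoprime_self] at h1
  have h2 := natDegree_eq_zero_of_isUnit h1
  rw [h.deg] at h2
  exact h.r_pos.ne' h2

theorem Sl.card_pos (h : Sl P r) : 0 < Fintype.card Pl := by
  by_contra h0
  have h1 : Fintype.card Pl = 0 := by omega
  have h2 := h.card_le
  rw [h1, mul_zero] at h2
  have h3 : 0 < Fintype.card K ^ r := pow_pos Fintype.card_pos _
  omega

theorem Sl.card_ge (h : Sl P r) : Fintype.card K ≤ r * Fintype.card Pl :=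
  (Nat.le_self_pow h.r_pos.ne' _).trans h.card_le

end sl

/-- number of `(λ_A, λ_B, λ_C)` with `λ_A P_A + λ_B P_B + λ_C P_C = 0`,
`P_X = ∏_i P (z(X,i))`. -/
noncomputable def Wt {K : Type} [Field K] {Pl : Type} (P : Pl → K[X]) {d : ℕ}
    (z : Fin 3 × Fin d → Pl) : ℝ :=
  (Nat.card {l : Fin 3 → Kˣ //
    ∑ X : Fin 3, C (l X : K) * ∏ i : Fin d, P (z (X, i)) = 0} : ℝ)

/-- expected weight. -/
noncomputable def wbar (q r d : ℕ) : ℝ := ((q : ℝ) - 1) ^ 3 / (q : ℝ) ^ (r * d + 1)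

/-- Count theorem. -/
def CountThm (N d r : ℕ) : Prop :=
  ∀ ε : ℝ, 0 < ε → ∃ q0 : ℕ, ∀ (K : Type) [Field K] [Fintype K] [DecidableEq K],
    q0 ≤ Fintype.card K → ∀ (Pl : Type) [Fintype Pl] [DecidableEq Pl] (P : Pl → K[X]), Sl P r →
    ∀ T : Finset (Fin 3 × Fin d), T.card ≤ N →
    ∀ z : Fin 3 × Fin d → Pl, (∀ a ∈ T, ∀ b ∈ T, a.1 ≠ b.1 → z a ≠ z b) →
    |(∑ z' : Fin 3 × Fin d → Pl, Wt P (T.piecewise z z')) / (Fintype.card Pl : ℝ) ^ (3 * d)
      - wbar (Fintype.card K) r d| ≤ ε * wbar (Fintype.card K) r d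

/-- FT: the finite field theorem. -/
def FT (m d r : ℕ) : Prop :=
  ∃ q0 : ℕ, ∀ (K : Type) [Field K] [Fintype K] [DecidableEq K], q0 ≤ Fintype.card K →
    ∀ (Pl : Type) [Fintype Pl] [DecidableEq Pl] (P : Pl → K[X]), Sl P r →
    ∀ Φ : (Fin (m + 2) → Pl) → ℝ,
      (∀ (t : Fin (m + 2) → Pl) (i : Fin (m + 2)), ∑ x : Pl, Φ (Function.update t i x) = 0) →
      (∀ (σ : Equiv.Perm (Fin (m + 2))) (t : Fin (m + 2) → Pl), σ 0 = 0 → Φ (t ∘ σ) = Φ t) →
      (∀ z : Fin 3 × Fin d → Pl,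
        (∃ l : Fin 3 → Kˣ, ∑ X : Fin 3, C (l X : K) * ∏ i : Fin d, P (z (X, i)) = 0) →
        ∑ j : Fin (m + 2) → Fin 3 × Fin d,
          c0 (j 0).1 * (∏ i : Fin (m + 1), c1 (j i.succ).1) * Φ (z ∘ j) = 0) →
      ∀ t, Φ t = 0

end Pool.Agent.T9h59.GD
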