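import Pool.Agent.H39R2.Gon.Inv
import Pool.Agent.T9h59.GD.Base

set_option autoImplicit false

/-!
# Parseval for products of slots
-/

namespace Pool.Agent.T9h59.GD

open Polynomial H39Gon Finset

variable {K : Type} [Field K] {Pl : Type}

/-- the polynomial `λ ∏_{i ∈ S} P (w_i)`. -/
noncomputable def gf (P : Pl → K[X]) (r : ℕ) (hdeg : ∀ a, (P a).degree = r) {d : ℕ}
    (S : Finset (Fin d)) (n : ℕ) (h : r * S.card < n) :
    Kˣ × (Fin d → Pl) → degreeLT K n :=
  fun ω => ⟨C (ω.1 : K) * ∏ i ∈ S, P (ω.2 i), by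
    rw [mem_degreeLT, degree_mul, degree_C ω.1.ne_zero, zero_add, degree_prod]
    simp only [hdeg, sum_const, nsmul_eq_mul]
    rw [mul_comm]
    exact_mod_cast h⟩

theorem gf_coe (P : Pl → K[X]) (r : ℕ) (hdeg : ∀ a, (P a).degree = r) {d : ℕ}
    (S : Finset (Fin d)) (n : ℕ) (h : r * S.card < n) (ω : Kˣ × (Fin d → Pl)) :
    ((gf P r hdeg S n h ω : degreeLT K n) : K[X]) = C (ω.1 : K) * ∏ i ∈ S, P (ω.2 i) := rfl

variable [Fintype K] [DecidableEq K] [Fintype Pl] [DecidableEq Pl]

theorem Sl.degree {P : Pl → K[X]} {r : ℕ} (hP : Sl P r) (a : Pl) : (P a).degree = r := by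
  rw [degree_eq_natDegree (hP.monic a).ne_zero, hP.deg]

/-- number of functions with prescribed multiset of values on `S`. -/
theorem card_multiset {d : ℕ} (S : Finset (Fin d)) (w0 : Fin d → Pl) :
    (univ.filter (fun w : Fin d → Pl => Multiset.map w S.val = Multiset.map w0 S.val)).card ≤
      Fintype.card Pl ^ (d - S.card) * S.card.factorial := by
  classical
  set μ := Multiset.map w0 S.val with hμ
  have hlen : μ.toList.length = S.card := by simp [hμ]
  have := Finset.card_le_card_of_injOn
    (s := univ.filter (fun w : Fin d → Pl => Multiset.map w S.val = μ))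
    (t := (univ : Finset ({x // x ∈ Sᶜ} → Pl)) ×ˢ μ.toList.permutations.toFinset)
    (fun w => (fun i => w i.1, S.toList.map w))
    (by
      intro w hw
      simp only [coe_filter, mem_univ, true_and, Set.mem_ofPred_eq] at hw
      simp only [coe_product, Set.mem_prod, mem_coe, mem_univ, true_and, List.mem_toFinset,
        List.mem_permutations]
      rw [← Multiset.coe_eq_coe, Multiset.coe_toList, ← Multiset.map_coe, Finset.coe_toList]
      exact hw)
    (by
      intro w _ w' _ h
      simp only [Prod.mk.injEq] at h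
      funext i
      by_cases hi : i ∈ S
      · have h2 := List.map_inj_left.1 h.2
        exact h2 i (by simpa using hi)
      · exact congrFun h.1 ⟨i, by simpa using hi⟩)
  refine this.trans ?_
  rw [Finset.card_product]
  apply Nat.mul_le_mul
  · simp [Finset.card_compl]
  · refine (List.toFinset_card_le _).trans ?_
    rw [List.length_permutations, hlen]

/-- the product determines the multiset of slots -/
theorem multiset_of_prod {P : Pl → K[X]} {r : ℕ} (hP : Sl P r) {d : ℕ} (S : Finset (Fin d))
    (w w' : Fin d → Pl) (h : ∏ i ∈ S, P (w i) = ∏ i ∈ S, P (w' i)) :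
    Multiset.map w S.val = Multiset.map w' S.val := by
  classical
  rw [Multiset.ext]
  intro a
  -- an irreducible factor of `P a`
  obtain ⟨π, hπ, hπa⟩ : ∃ π : K[X], Irreducible π ∧ π ∣ P a := by
    apply WfDvdMonoid.exists_irreducible_factor
    · intro hu
      have := natDegree_eq_zero_of_isUnit hu
      rw [hP.deg] at this
      exact hP.r_pos.ne' this
    · exact (hP.monic a).ne_zero
  have hπp : Prime π := hπ.prime
  have hb : ∀ b, b ≠ a → emultiplicity π (P b) = 0 := by
    intro b hb
    rw [emultiplicity_eq_zero]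
    intro hd
    exact hπ.not_isUnit ((hP.cop b a hb).isUnit_of_dvd' hd hπa)
  have hfin : FiniteMultiplicity π (P a) :=
    FiniteMultiplicity.of_prime_left hπp (hP.monic a).ne_zero
  have hpos : 0 < multiplicity π (P a) := by
    exact dvd_iff_multiplicity_pos.2 hπa
  have hsum : ∀ w : Fin d → Pl, emultiplicity π (∏ i ∈ S, P (w i)) =
      ((Multiset.count a (Multiset.map w S.val) * multiplicity π (P a) : ℕ) : ℕ∞) := by
    intro w
    rw [Finset.emultiplicity_prod hπp]
    have h1 : ∀ i ∈ S, emultiplicity π (P (w i)) =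
        ((if a = w i then multiplicity π (P a) else 0 : ℕ) : ℕ∞) := by
      intro i _
      split_ifs with h2
      · rw [← h2, hfin.emultiplicity_eq_multiplicity]
      · rw [hb _ (fun h3 => h2 h3.symm)]
        rfl
    rw [Finset.sum_congr rfl h1, ← Nat.cast_sum]
    congr 1
    rw [Multiset.count_map, ← Finset.sum_filter, Finset.sum_const, smul_eq_mul]
    rfl
  have h1 := hsum w
  rw [h, hsum w'] at h1
  have h2 : Multiset.count a (Multiset.map w' S.val) * multiplicity π (P a) =
      Multiset.count a (Multiset.map w S.val) * multiplicity π (P a) := by exact_mod_cast h1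
  exact (Nat.eq_of_mul_eq_mul_right hpos h2).symm

theorem gf_mult {P : Pl → K[X]} {r : ℕ} (hP : Sl P r) {d : ℕ} (S : Finset (Fin d)) (n : ℕ)
    (h : r * S.card < n) (ω : Kˣ × (Fin d → Pl)) :
    (univ.filter (fun ω' : Kˣ × (Fin d → Pl) => gf P r hP.degree S n h ω' =
      gf P r hP.degree S n h ω)).card ≤ Fintype.card Pl ^ (d - S.card) * S.card.factorial := by
  classical
  refine le_trans ?_ (card_multiset S ω.2)
  have hl : ∀ w : Fin d → Pl, (∏ i ∈ S, P (w i)).leadingCoeff = 1 := fun w =>
    (monic_prod_of_monic _ _ (fun i _ => hP.monic _)).leadingCoeff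
  have hu : ∀ ω' : Kˣ × (Fin d → Pl), gf P r hP.degree S n h ω' = gf P r hP.degree S n h ω →
      ω'.1 = ω.1 := by
    intro ω' hω'
    have h3 := congrArg (fun P : degreeLT K n => (P : K[X]).leadingCoeff) hω'
    simp only [gf_coe, leadingCoeff_mul, leadingCoeff_C, hl, mul_one] at h3
    exact Units.ext h3
  apply Finset.card_le_card_of_injOn (fun ω' => ω'.2)
  · intro ω' hω'
    simp only [coe_filter, mem_univ, true_and, Set.mem_ofPred_eq] at hω' ⊢
    apply multiset_of_prod hP
    have h1 := congrArg (fun P : degreeLT K n => (P : K[X])) hω'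
    simp only [gf_coe] at h1
    rw [hu ω' hω'] at h1
    exact mul_left_cancel₀ (by simp) h1
  · intro ω' h' ω'' h'' h2
    simp only [coe_filter, mem_univ, true_and, Set.mem_ofPred_eq] at h' h''
    exact Prod.ext ((hu _ h').trans (hu _ h'').symm) h2

/-- the constant -/
noncomputable def CP (r d : ℕ) : ℝ := 2 * ((r : ℝ) ^ d * d.factorial)

theorem CP_nonneg (r d : ℕ) : 0 ≤ CP r d := by unfold CP; positivity

/-- (P) Parseval bound. -/
theorem parseval_gf {P : Pl → K[X]} {r : ℕ} (hP : Sl P r) {d : ℕ} (S : Finset (Fin d)) (n : ℕ)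
    (hn : r * S.card + 1 = n) (h : r * S.card < n) :
    ∑ χ : AddChar (degreeLT K n) ℂ, nrm (gf P r hP.degree S n h) χ ^ 2 ≤ CP r d := by
  classical
  have hq : 2 ≤ Fintype.card K := Fintype.one_lt_card
  have hSd : S.card ≤ d := by simpa using Finset.card_le_univ S
  have hPl := hP.card_pos
  haveI : Nonempty Pl := Fintype.card_pos_iff.1 hPl
  refine (parseval_bound _ _ (gf_mult hP S n h)).trans ?_
  have hcu : Fintype.card Kˣ = Fintype.card K - 1 := Fintype.card_units K
  have hc : Fintype.card (Kˣ × (Fin d → Pl)) = (Fintype.card K - 1) * Fintype.card Pl ^ d := by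
    rw [Fintype.card_prod, hcu]; simp
  rw [hc, card_degreeLT]
  have hcle := hP.card_le
  set q := Fintype.card K with hqdef
  set N := Fintype.card Pl with hN
  have hq1 : (1 : ℝ) ≤ (q : ℝ) - 1 := by
    have : (2 : ℝ) ≤ q := by exact_mod_cast hq
    linarith
  have hNr : (0 : ℝ) < N := by exact_mod_cast hPl
  rw [div_le_iff₀ (by
    have : 0 < q - 1 := by omega
    positivity)]
  push_cast [Nat.cast_sub (by omega : 1 ≤ q)]
  have hf : (S.card.factorial : ℝ) ≤ d.factorial := by exact_mod_cast Nat.factorial_le hSd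
  have hr1 : (1 : ℝ) ≤ r := by exact_mod_cast hP.r_pos
  have hqp : (0 : ℝ) < q := by linarith
  have e1 : (q : ℝ) ^ (r * S.card) ≤ (r : ℝ) ^ S.card * (N : ℝ) ^ S.card := by
    rw [pow_mul, ← mul_pow]
    apply pow_le_pow_left₀ (by positivity)
    exact_mod_cast hcle
  have e2 : (r : ℝ) ^ S.card ≤ (r : ℝ) ^ d := pow_le_pow_right₀ hr1 hSd
  have e3 : (N : ℝ) ^ S.card * (N : ℝ) ^ (d - S.card) = (N : ℝ) ^ d := by
    rw [← pow_add]; congr 1; omega
  have e4 : (q : ℝ) ≤ 2 * (q - 1) := by linarith
  have e5 : (q : ℝ) ^ n = q ^ (r * S.card) * q := by rw [← hn, pow_succ]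
  rw [e5]
  calc (q : ℝ) ^ (r * S.card) * q * ((N : ℝ) ^ (d - S.card) * S.card.factorial)
      ≤ ((r : ℝ) ^ d * (N : ℝ) ^ S.card) * (2 * (q - 1)) *
        ((N : ℝ) ^ (d - S.card) * d.factorial) := by
        gcongr
        exact e1.trans (by gcongr)
    _ = (2 * ((r : ℝ) ^ d * d.factorial)) * ((q - 1) * ((N : ℝ) ^ S.card *
        (N : ℝ) ^ (d - S.card))) := by ring
    _ = CP r d * ((q - 1) * (N : ℝ) ^ d) := by rw [e3]; rfl

theorem nrm_scl {P : Pl → K[X]} {r : ℕ} (hP : Sl P r) {d : ℕ} (S : Finset (Fin d)) (n : ℕ)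
    (h : r * S.card < n) (u : Kˣ) (χ : AddChar (degreeLT K n) ℂ) :
    nrm (gf P r hP.degree S n h) (scl (u : K) χ) = nrm (gf P r hP.degree S n h) χ := by
  unfold nrm
  congr 2
  refine Fintype.sum_equiv ((Equiv.mulLeft u).prodCongr (Equiv.refl _)) _ _ ?_
  intro ω
  rw [scl_apply]
  congr 1
  ext1
  simp [gf_coe, Polynomial.smul_eq_C_mul, mul_assoc]

/-- Scaling bound. -/
theorem scaling_bound {P : Pl → K[X]} {r : ℕ} (hP : Sl P r) {d : ℕ} (S : Finset (Fin d)) (n : ℕ)
    (hn : r * S.card + 1 = n) (hlt : r * S.card < n) (M : K[X]) {a : ℕ}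
    (h : M.natDegree + a ≤ n) (Q : AddChar (degreeLT K a) ℂ) (hQ : Q ≠ 1)
    [DecidableEq (AddChar (degreeLT K a) ℂ)] :
    ∑ χ ∈ univ.filter (fun χ : AddChar (degreeLT K n) ℂ => resC M h χ = Q),
      nrm (gf P r hP.degree S n hlt) χ ^ 2 ≤ CP r d / ((Fintype.card K : ℝ) - 1) := by
  classical
  have hq : 2 ≤ Fintype.card K := Fintype.one_lt_card
  have hq1 : (1 : ℝ) ≤ (Fintype.card K : ℝ) - 1 := by
    have : (2 : ℝ) ≤ Fintype.card K := by exact_mod_cast hq
    linarith
  set F : AddChar (degreeLT K a) ℂ → ℝ := fun Q =>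
    ∑ χ ∈ univ.filter (fun χ : AddChar (degreeLT K n) ℂ => resC M h χ = Q),
      nrm (gf P r hP.degree S n hlt) χ ^ 2 with hF
  have hinv : ∀ u : Kˣ, F (scl (u : K) Q) = F Q := by
    intro u
    rw [hF]
    simp only
    symm
    apply Finset.sum_bij' (fun χ _ => scl (u : K) χ) (fun χ _ => scl ((u⁻¹ : Kˣ) : K) χ)
    · intro χ hχ
      simp only [mem_filter, mem_univ, true_and] at hχ ⊢
      rw [scl_resC, hχ]
    · intro χ hχ
      simp only [mem_filter, mem_univ, true_and] at hχ ⊢
      rw [scl_resC, hχ]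
      ext P; simp [scl_apply, smul_smul]
    · intro χ _
      ext P; simp [scl_apply, smul_smul]
    · intro χ _
      ext P; simp [scl_apply, smul_smul]
    · intro χ _
      rw [nrm_scl hP]
  have hsum : ∑ u : Kˣ, F (scl (u : K) Q) ≤ ∑ Q', F Q' := by
    apply sum_le_of_inj univ univ (fun u : Kˣ => scl (u : K) Q)
    · intro u _ v _ huv
      exact Units.ext (scl_inj Q hQ _ _ huv)
    · intro _ _; exact mem_univ _
    · intro Q'; exact Finset.sum_nonneg (fun _ _ => sq_nonneg _)
  have htot : ∑ Q', F Q' = ∑ χ : AddChar (degreeLT K n) ℂ,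
      nrm (gf P r hP.degree S n hlt) χ ^ 2 := by
    rw [hF]
    exact Finset.sum_fiberwise univ (fun χ => resC M h χ) _
  have hPa := parseval_gf hP S n hn hlt
  simp_rw [hinv] at hsum
  rw [htot, Finset.sum_const, Finset.card_univ, Fintype.card_units K, nsmul_eq_mul,
    Nat.cast_sub (by omega), Nat.cast_one] at hsum
  rw [le_div_iff₀ (by linarith)]
  have : F Q * ((Fintype.card K : ℝ) - 1) = ((Fintype.card K : ℝ) - 1) * F Q := by ring
  change F Q * ((Fintype.card K : ℝ) - 1) ≤ _
  rw [this]
  linarith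

/-! ### translations -/

theorem nrm_trc {P : Pl → K[X]} {r : ℕ} (hP : Sl P r) {d : ℕ} (S : Finset (Fin d)) (n : ℕ)
    (h : r * S.card < n) (t : K) (χ : AddChar (degreeLT K n) ℂ) :
    nrm (gf P r hP.degree S n h) (trc t χ) = nrm (gf P r hP.degree S n h) χ := by
  obtain ⟨e, he⟩ := hP.tr t
  unfold nrm
  congr 2
  refine Fintype.sum_equiv ((Equiv.refl _).prodCongr ((Equiv.refl (Fin d)).arrowCongr e)) _ _ ?_
  intro ω
  rw [trc_apply]
  congr 1
  ext1
  rw [tay_coe, gf_coe, gf_coe, taylor_mul, taylor_C]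
  congr 1
  rw [← taylorAlgHom_apply, map_prod]
  apply Finset.prod_congr rfl
  intro i _
  simp only [taylorAlgHom_apply]
  exact (he (ω.2 i)).symm

/-- Translation bound. -/
theorem translation_bound {P : Pl → K[X]} {r : ℕ} (hP : Sl P r) {d : ℕ} (S : Finset (Fin d))
    (n : ℕ) (hn : r * S.card + 1 = n) (hlt : r * S.card < n) {ι : Type}
    (N : Finset ι) (z : ι → Pl) {a : ℕ}
    (h : (∏ i ∈ N, P (z i)).natDegree + a = n) (hN : 2 * (r * N.card) ≤ n)
    [DecidableEq (AddChar (degreeLT K a) ℂ)] :
    ∑ χ ∈ univ.filter (fun χ : AddChar (degreeLT K n) ℂ =>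
        resC (∏ i ∈ N, P (z i)) h.le χ = 1),
      nrm (gf P r hP.degree S n hlt) χ ^ 2 ≤
      1 + ((N.card : ℝ) ^ 2 * r) * CP r d / (Fintype.card K : ℝ) := by
  classical
  have hPl := hP.card_pos
  haveI : Nonempty Pl := Fintype.card_pos_iff.1 hPl
  set al : AddChar (degreeLT K n) ℂ → ℝ :=
    fun χ => nrm (gf P r hP.degree S n hlt) χ ^ 2 with hal
  have hq : (0 : ℝ) < Fintype.card K := by exact_mod_cast Fintype.card_pos
  -- the translated polynomials
  set G : K → K[X] := fun t => ∏ i ∈ N, taylor t (P (z i)) with hG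
  have hex : ∀ t a, ∃ b, P b = taylor t (P a) := fun t a => by
    obtain ⟨e, he⟩ := hP.tr t
    exact ⟨e a, he a⟩
  choose tr htr using hex
  have hG' : ∀ t, G t = ∏ i ∈ N, P (tr t (z i)) := fun t => by
    rw [hG]
    exact Finset.prod_congr rfl fun i _ => (htr t (z i)).symm
  have hGm : ∀ t, (G t).Monic := fun t => by
    rw [hG']; exact monic_prod_of_monic _ _ (fun i _ => hP.monic _)
  have hGd : ∀ t, (G t).natDegree = r * N.card := by
    intro t
    rw [hG', natDegree_prod_of_monic _ _ (fun i _ => hP.monic _)]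
    simp only [hP.deg, sum_const, smul_eq_mul, mul_comm]
  have hG0 : ∏ i ∈ N, P (z i) = G 0 := by rw [hG]; simp
  have hGt : ∀ t, taylor t (G 0) = G t := by
    intro t
    rw [hG]
    simp only [taylor_zero]
    rw [← taylorAlgHom_apply, map_prod]
    rfl
  have hNd : (∏ i ∈ N, P (z i)).natDegree = r * N.card := by rw [hG0, hGd]
  have ha : ∀ t, (G t).natDegree + a = n := by intro t; rw [hGd, ← hNd]; exact h
  -- D t
  set D : K → ℝ := fun t => ∑ χ ∈ (univ.filter (fun χ : AddChar (degreeLT K n) ℂ =>
        resC (G t) (ha t).le χ = 1)).erase 1, al χ with hD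
  have hDt : ∀ t, D t = D 0 := by
    intro t
    rw [hD]
    simp only
    apply Finset.sum_bij' (fun χ _ => trc t χ) (fun χ _ => trc (-t) χ)
    · intro χ hχ
      simp only [mem_filter, mem_univ, true_and, mem_erase] at hχ ⊢
      refine ⟨?_, ?_⟩
      · intro h1
        apply hχ.1
        rw [← trc_neg t χ, h1]
        ext P; simp
      · ext P
        rw [resC_apply, trc_apply]
        have h2 := DFunLike.congr_fun hχ.2 (tay t _ P)
        rw [resC_apply] at h2
        rw [AddChar.one_apply] at h2 ⊢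
        rw [← h2]
        congr 1
        ext1
        rw [tay_coe, mulMap_coe, mulMap_coe, taylor_mul, hGt, tay_coe]
    · intro χ hχ
      simp only [mem_filter, mem_univ, true_and, mem_erase] at hχ ⊢
      refine ⟨?_, ?_⟩
      · intro h1
        apply hχ.1
        rw [← trc_neg' t χ, h1]
        ext P; simp
      · ext P
        rw [resC_apply, trc_apply]
        have h2 := DFunLike.congr_fun hχ.2 (tay (-t) _ P)
        rw [resC_apply] at h2
        rw [AddChar.one_apply] at h2 ⊢
        rw [← h2]
        congr 1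
        ext1
        rw [tay_coe, mulMap_coe, mulMap_coe, taylor_mul, ← hGt t, taylor_taylor, neg_add_cancel,
          taylor_zero, tay_coe]
    · intro χ _
      exact trc_neg t χ
    · intro χ _
      exact trc_neg' t χ
    · intro χ _
      rw [hal]; simp only
      rw [nrm_trc hP]
  have hcount : ∀ χ : AddChar (degreeLT K n) ℂ, χ ≠ 1 →
      (univ.filter (fun t : K => resC (G t) (ha t).le χ = 1)).card ≤ N.card ^ 2 * r := by
    intro χ hχ
    by_cases hne : (univ.filter (fun t : K => resC (G t) (ha t).le χ = 1)).Nonempty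
    · obtain ⟨t0, ht0⟩ := hne
      simp only [mem_filter, mem_univ, true_and] at ht0
      have hsub : univ.filter (fun t : K => resC (G t) (ha t).le χ = 1) ⊆
          (N ×ˢ N).biUnion (fun p => univ.filter (fun t : K =>
            taylor t (P (z p.1)) = P (tr t0 (z p.2)))) := by
        intro t ht
        simp only [mem_filter, mem_univ, true_and] at ht
        by_contra hcon
        apply hχ
        have hcop : IsCoprime (G t) (G t0) := by
          rw [hG', hG']
          apply IsCoprime.prod_left; intro i hi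
          apply IsCoprime.prod_right; intro j hj
          apply hP.cop
          intro h0
          apply hcon
          rw [Finset.mem_biUnion]
          refine ⟨(i, j), by simp [hi, hj], ?_⟩
          simp only [mem_filter, mem_univ, true_and]
          rw [← htr, h0]
        apply resC_inj (hGm t) (hGm t0) hcop (ha t) (ha t0) (by rw [hGd, hGd]; omega) χ 1
        · rw [ht, resC_one]
        · rw [ht0, resC_one]
      refine (Finset.card_le_card hsub).trans ?_
      refine (Finset.card_biUnion_le_card_mul _ _ r (fun p _ => hP.stab _ _)).trans ?_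
      rw [Finset.card_product, sq]
    · rw [Finset.not_nonempty_iff_eq_empty] at hne
      rw [hne]; simp
  have hsum : ∑ t : K, D t ≤ ((N.card : ℝ) ^ 2 * r) * CP r d := by
    calc ∑ t : K, D t = ∑ t : K, ∑ χ ∈ univ.erase (1 : AddChar (degreeLT K n) ℂ),
          (if resC (G t) (ha t).le χ = 1 then al χ else 0) := by
          apply Finset.sum_congr rfl; intro t _
          rw [hD]; simp only
          rw [← Finset.sum_filter]
          apply Finset.sum_congr _ (fun _ _ => rfl)
          ext χ; simp only [mem_erase, mem_filter, mem_univ, true_and]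
          tauto
      _ = ∑ χ ∈ univ.erase (1 : AddChar (degreeLT K n) ℂ),
          ((univ.filter (fun t : K => resC (G t) (ha t).le χ = 1)).card : ℝ) * al χ := by
          rw [Finset.sum_comm]
          apply Finset.sum_congr rfl; intro χ _
          rw [← Finset.sum_filter, Finset.sum_const, nsmul_eq_mul]
      _ ≤ ∑ χ ∈ univ.erase (1 : AddChar (degreeLT K n) ℂ),
          ((N.card : ℝ) ^ 2 * r) * al χ := by
          apply Finset.sum_le_sum
          intro χ hχ
          have := hcount χ (Finset.ne_of_mem_erase hχ)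
          have h0 : 0 ≤ al χ := sq_nonneg _
          have h1 : ((univ.filter (fun t : K => resC (G t) (ha t).le χ = 1)).card : ℝ) ≤
              (N.card : ℝ) ^ 2 * r := by exact_mod_cast this
          exact mul_le_mul_of_nonneg_right h1 h0
      _ ≤ ∑ χ, ((N.card : ℝ) ^ 2 * r) * al χ := by
          apply Finset.sum_le_sum_of_subset_of_nonneg (Finset.erase_subset _ _)
          intro χ _ _
          have h0 : 0 ≤ al χ := sq_nonneg _
          positivity
      _ ≤ _ := by
          rw [← Finset.mul_sum]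
          have := parseval_gf hP S n hn hlt
          apply mul_le_mul_of_nonneg_left this (by positivity)
  simp_rw [hDt] at hsum
  rw [Finset.sum_const, Finset.card_univ, nsmul_eq_mul] at hsum
  have hfin : ∑ χ ∈ univ.filter (fun χ : AddChar (degreeLT K n) ℂ =>
        resC (∏ i ∈ N, P (z i)) h.le χ = 1), al χ = D 0 + al 1 := by
    have e : univ.filter (fun χ : AddChar (degreeLT K n) ℂ =>
        resC (∏ i ∈ N, P (z i)) h.le χ = 1) =
        univ.filter (fun χ : AddChar (degreeLT K n) ℂ =>
        resC (G 0) (ha 0).le χ = 1) := by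
      ext χ
      simp only [mem_filter, mem_univ, true_and]
      have : resC (∏ i ∈ N, P (z i)) h.le χ = resC (G 0) (ha 0).le χ := by
        ext P
        rw [resC_apply, resC_apply]
        congr 1
        ext1
        simp [hG0]
      rw [this]
    rw [e, hD]
    simp only
    rw [Finset.sum_erase_add]
    simp only [mem_filter, mem_univ, true_and]
    exact resC_one _ _
  change ∑ χ ∈ univ.filter (fun χ : AddChar (degreeLT K n) ℂ =>
        resC (∏ i ∈ N, P (z i)) h.le χ = 1), al χ ≤ _
  rw [hfin]
  have hal1 : al 1 = 1 := by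
    rw [hal]; simp only
    rw [nrm_one]; simp
  rw [hal1]
  have : D 0 ≤ ((N.card : ℝ) ^ 2 * r) * CP r d / (Fintype.card K : ℝ) := by
    rw [le_div_iff₀ hq]; linarith
  linarith

end Pool.Agent.T9h59.GD
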