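import Pool.Agent.H39R2.Gon.Count
import Pool.Agent.T9h59.GD.Four

set_option autoImplicit false

/-!
# The count theorem for slots
-/

namespace Pool.Agent.T9h59.GD

open Polynomial H39Gon Finset

section basic

variable {K : Type} [Field K] {Pl : Type}

/-- product over a set of slots -/
noncomputable def MT (P : Pl → K[X]) {ι : Type} (N : Finset ι) (z : ι → Pl) : K[X] :=
  ∏ a ∈ N, P (z a)

theorem P_split (P : Pl → K[X]) {d : ℕ} (T : Finset (Fin 3 × Fin d)) (z z' : Fin 3 × Fin d → Pl)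
    (Y : Fin 3) :
    ∏ i : Fin d, P (T.piecewise z z' (Y, i)) =
      MT P (T.filter (fun a => a.1 = Y)) z * ∏ i ∈ Sf T Y, P (z' (Y, i)) := by
  classical
  rw [← Finset.prod_filter_mul_prod_filter_not univ (fun i : Fin d => (Y, i) ∈ T)]
  congr 1
  · unfold MT
    apply Finset.prod_bij (fun i _ => (Y, i))
    · intro i hi
      simp only [mem_filter, mem_univ, true_and] at hi ⊢
      exact ⟨hi, trivial⟩
    · intro i _ j _ h
      simpa using h
    · intro b hb
      simp only [mem_filter] at hb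
      refine ⟨b.2, ?_, ?_⟩
      · simp only [mem_filter, mem_univ, true_and]
        rw [← hb.2]; exact hb.1
      · rw [← hb.2]
    · intro i hi
      simp only [mem_filter, mem_univ, true_and] at hi
      rw [Finset.piecewise_eq_of_mem _ _ _ hi]
  · unfold Sf
    apply Finset.prod_congr rfl
    intro i hi
    simp only [mem_filter, mem_univ, true_and] at hi
    rw [Finset.piecewise_eq_of_notMem _ _ _ hi]

end basic

/-- number of coefficients of the free part -/
def nf {d : ℕ} (r : ℕ) (T : Finset (Fin 3 × Fin d)) (X : Fin 3) : ℕ := r * (Sf T X).card + 1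

theorem nf_eq {d : ℕ} (r : ℕ) (T : Finset (Fin 3 × Fin d)) (X : Fin 3) :
    r * (Sf T X).card + 1 = nf r T X := rfl

theorem nf_lt {d : ℕ} (r : ℕ) (T : Finset (Fin 3 × Fin d)) (X : Fin 3) :
    r * (Sf T X).card < nf r T X := Nat.lt_succ_self _

attribute [irreducible] nf

variable {K : Type} [Field K] [Fintype K] [DecidableEq K] {Pl : Type} [Fintype Pl] [DecidableEq Pl]
  {P : Pl → K[X]} {r : ℕ}

theorem MT_monic (hP : Sl P r) {ι : Type} (N : Finset ι) (z : ι → Pl) : (MT P N z).Monic :=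
  monic_prod_of_monic _ _ (fun _ _ => hP.monic _)

theorem MT_natDegree (hP : Sl P r) {ι : Type} (N : Finset ι) (z : ι → Pl) :
    (MT P N z).natDegree = r * N.card := by
  unfold MT
  rw [natDegree_prod_of_monic _ _ (fun i _ => hP.monic _)]
  simp only [hP.deg, sum_const, smul_eq_mul, mul_comm]

theorem MT_coprime (hP : Sl P r) {ι : Type} (N N' : Finset ι) (z : ι → Pl)
    (h : ∀ a ∈ N, ∀ b ∈ N', z a ≠ z b) : IsCoprime (MT P N z) (MT P N' z) := by
  unfold MT
  apply IsCoprime.prod_left; intro i hi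
  apply IsCoprime.prod_right; intro j hj
  exact hP.cop _ _ (h i hi j hj)

theorem hTX (hP : Sl P r) {d : ℕ} (T : Finset (Fin 3 × Fin d)) (z : Fin 3 × Fin d → Pl)
    (X : Fin 3) : (MT P (T.filter (fun a => a.1 = X)) z).natDegree + nf r T X = r * d + 1 := by
  rw [MT_natDegree hP, ← nf_eq, ← add_assoc, ← mul_add, Sf_card]

/-- restriction to multiples of `M_X` -/
noncomputable def resX (hP : Sl P r) {d : ℕ} (T : Finset (Fin 3 × Fin d))
    (z : Fin 3 × Fin d → Pl) (Y : Fin 3)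
    (χ : AddChar (degreeLT K (r * d + 1)) ℂ) : AddChar (degreeLT K (nf r T Y)) ℂ :=
  resC (a := nf r T Y) (b := r * d + 1) (MT P (T.filter (fun a => a.1 = Y)) z)
    (le_of_eq (hTX hP T z Y)) χ

/-- the vectors `M_X g_X(ω)` -/
noncomputable def vec (hP : Sl P r) {d : ℕ} (T : Finset (Fin 3 × Fin d))
    (z : Fin 3 × Fin d → Pl) (X : Fin 3)
    (ω : Kˣ × (Fin d → Pl)) : degreeLT K (r * d + 1) :=
  mulMap (a := nf r T X) (b := r * d + 1) (MT P (T.filter (fun a => a.1 = X)) z)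
    (le_of_eq (hTX hP T z X)) (gf P r hP.degree (Sf T X) (nf r T X) (nf_lt r T X) ω)

theorem Wt_eq (hP : Sl P r) {d : ℕ} (T : Finset (Fin 3 × Fin d)) (z z' : Fin 3 × Fin d → Pl) :
    Wt P (T.piecewise z z') = ∑ l : Fin 3 → Kˣ,
      (if ∑ X : Fin 3, vec hP T z X (l X, fun i => z' (X, i)) = 0 then (1 : ℝ) else 0) := by
  classical
  unfold Wt
  rw [Nat.card_eq_fintype_card, Fintype.card_subtype, Finset.card_filter]
  push_cast
  apply Finset.sum_congr rfl
  intro l _
  have : (∑ Y : Fin 3, C (l Y : K) * ∏ i : Fin d, P (T.piecewise z z' (Y, i)) = 0) ↔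
      (∑ Y : Fin 3, vec hP T z Y (l Y, fun i => z' (Y, i)) = 0) := by
    rw [← Submodule.coe_eq_zero, Submodule.coe_sum]
    have e : ∀ Y : Fin 3, ((vec hP T z Y (l Y, fun i => z' (Y, i)) :
        degreeLT K (r * d + 1)) : K[X]) =
        C (l Y : K) * ∏ i : Fin d, P (T.piecewise z z' (Y, i)) := by
      intro Y
      rw [P_split]
      unfold vec
      rw [mulMap_coe, gf_coe]
      ring
    simp_rw [e]
  simp only [this]

theorem main_identity (hP : Sl P r) {d : ℕ} (T : Finset (Fin 3 × Fin d))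
    (z : Fin 3 × Fin d → Pl) :
    (((Fintype.card K : ℝ) ^ (r * d + 1) *
      ∑ z' : Fin 3 × Fin d → Pl, Wt P (T.piecewise z z') : ℝ) : ℂ) =
      ∑ χ : AddChar (degreeLT K (r * d + 1)) ℂ, ∏ X : Fin 3, ∑ ω, χ (vec hP T z X ω) := by
  classical
  have h1 : ∀ z' : Fin 3 × Fin d → Pl,
      (((Fintype.card K : ℝ) ^ (r * d + 1) * Wt P (T.piecewise z z') : ℝ) : ℂ)
      = ∑ l : Fin 3 → Kˣ, ∑ χ : AddChar (degreeLT K (r * d + 1)) ℂ,
        ∏ X : Fin 3, χ (vec hP T z X (l X, fun i => z' (X, i))) := by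
    intro z'
    rw [Wt_eq hP]
    push_cast
    rw [Finset.mul_sum]
    apply Finset.sum_congr rfl
    intro l _
    have := AddChar.sum_apply_eq_ite (∑ X : Fin 3, vec hP T z X (l X, fun i => z' (X, i)))
    have h2 : ∀ χ : AddChar (degreeLT K (r * d + 1)) ℂ,
        χ (∑ X : Fin 3, vec hP T z X (l X, fun i => z' (X, i))) =
        ∏ X : Fin 3, χ (vec hP T z X (l X, fun i => z' (X, i))) := by
      intro χ
      rw [Fin.sum_univ_three, Fin.prod_univ_three, AddChar.map_add_eq_mul, AddChar.map_add_eq_mul]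
    simp_rw [h2] at this
    rw [this, card_degreeLT]
    split_ifs <;> simp
  rw [Finset.mul_sum, Complex.ofReal_sum]
  simp_rw [h1]
  simp_rw [Finset.sum_comm (s := (univ : Finset (Fin 3 → Kˣ)))]
  rw [Finset.sum_comm]
  apply Finset.sum_congr rfl
  intro χ _
  rw [Finset.prod_univ_sum]
  rw [Fintype.piFinset_univ, ← Finset.sum_product', Finset.univ_product_univ]
  exact Fintype.sum_equiv (reidx d Pl Kˣ) _ _ (fun p => rfl)

/-- abstract version of the error bound -/
theorem err_abs (hP : Sl P r) {d : ℕ} (S : Fin 3 → Finset (Fin d)) (n : Fin 3 → ℕ)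
    (hn : ∀ Y, r * (S Y).card + 1 = n Y) (hlt : ∀ Y, r * (S Y).card < n Y)
    (M : Fin 3 → K[X]) (hmon : ∀ Y, (M Y).Monic) (hcop : ∀ X Y : Fin 3, X ≠ Y → IsCoprime (M X) (M Y))
    {ι : Type} (NN : Fin 3 → Finset ι) (z : ι → Pl) (MM : K[X])
    (hMN : ∀ Y, M Y * MT P (NN Y) z = MM) (a e : ℕ)
    (hX : ∀ Y, (M Y).natDegree + n Y = r * d + 1)
    (hra : ∀ Y, (MT P (NN Y) z).natDegree + a = n Y)
    (ht0 : (M 1).natDegree + e = n 0) (ht1 : (M 0).natDegree + e = n 1)
    (hle : (M 0).natDegree + (M 1).natDegree + (M 2).natDegree ≤ r * d + 1)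
    (hNN : ∀ Y, 2 * (r * (NN Y).card) ≤ n Y) (N : ℕ) (hN : ∀ Y, (NN Y).card ≤ N) :
    ∑ χ ∈ univ.erase (1 : AddChar (degreeLT K (r * d + 1)) ℂ),
      nrm (gf P r hP.degree (S 0) (n 0) (hlt 0))
        (resC (a := n 0) (b := r * d + 1) (M 0) (le_of_eq (hX 0)) χ) *
      nrm (gf P r hP.degree (S 1) (n 1) (hlt 1))
        (resC (a := n 1) (b := r * d + 1) (M 1) (le_of_eq (hX 1)) χ) *
      nrm (gf P r hP.degree (S 2) (n 2) (hlt 2))
        (resC (a := n 2) (b := r * d + 1) (M 2) (le_of_eq (hX 2)) χ) ≤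
      CP r d * √(CP r d / ((Fintype.card K : ℝ) - 1)) +
        ((1 + ((N : ℝ) ^ 2 * r) * CP r d / (Fintype.card K : ℝ)) ^ 2 - 1) := by
  classical
  have hPl := hP.card_pos
  haveI : Nonempty Pl := Fintype.card_pos_iff.1 hPl
  have hq : (0 : ℝ) < Fintype.card K := by exact_mod_cast Fintype.card_pos
  have hCP := CP_nonneg r d
  have hrr : ∀ (Y Y' : Fin 3) (χ : AddChar (degreeLT K (r * d + 1)) ℂ),
      resC (a := a) (b := n Y) (MT P (NN Y) z) (le_of_eq (hra Y))
        (resC (a := n Y) (b := r * d + 1) (M Y) (le_of_eq (hX Y)) χ) =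
      resC (a := a) (b := n Y') (MT P (NN Y') z) (le_of_eq (hra Y'))
        (resC (a := n Y') (b := r * d + 1) (M Y') (le_of_eq (hX Y')) χ) := by
    intro Y Y' χ
    ext P
    rw [resC_apply, resC_apply, resC_apply, resC_apply]
    congr 1
    ext1
    rw [mulMap_coe, mulMap_coe, mulMap_coe, mulMap_coe, ← mul_assoc, ← mul_assoc, hMN, hMN]
  have htb : ∀ Y, ∑ χ ∈ univ.filter (fun χ : AddChar (degreeLT K (n Y)) ℂ =>
      resC (a := a) (b := n Y) (MT P (NN Y) z) (le_of_eq (hra Y)) χ = 1),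
      nrm (gf P r hP.degree (S Y) (n Y) (hlt Y)) χ ^ 2 ≤
      1 + ((N : ℝ) ^ 2 * r) * CP r d / (Fintype.card K : ℝ) := by
    intro Y
    refine (translation_bound hP (S Y) _ (hn Y) (hlt Y) (NN Y) z (hra Y) (hNN Y)).trans ?_
    have : ((NN Y).card : ℝ) ≤ N := by exact_mod_cast hN Y
    gcongr
  apply abstract_bound (Θ := AddChar (degreeLT K e) ℂ) (H := AddChar (degreeLT K a) ℂ)
    (resC (a := n 0) (b := r * d + 1) (M 0) (le_of_eq (hX 0)))
    (resC (a := n 1) (b := r * d + 1) (M 1) (le_of_eq (hX 1)))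
    (resC (a := n 2) (b := r * d + 1) (M 2) (le_of_eq (hX 2)))
    (resC (a := e) (b := n 0) (M 1) (le_of_eq ht0)) (resC (a := e) (b := n 1) (M 0) (le_of_eq ht1))
    ?_ ?_ ?_
    (resC (a := a) (b := n 0) (MT P (NN 0) z) (le_of_eq (hra 0)))
    (resC (a := a) (b := n 1) (MT P (NN 1) z) (le_of_eq (hra 1)))
    (resC (a := a) (b := n 2) (MT P (NN 2) z) (le_of_eq (hra 2))) ?_ ?_
    1 _ _ _ (nrm_nonneg _) (nrm_nonneg _) (nrm_nonneg _) ?_ _ _ _ hCP (by positivity)
    (parseval_gf hP _ _ (hn 0) _) (parseval_gf hP _ _ (hn 1) _) ?_ ?_ ?_ ?_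
  · intro χ
    ext P
    rw [resC_apply, resC_apply, resC_apply, resC_apply]
    congr 1
    ext1
    rw [mulMap_coe, mulMap_coe, mulMap_coe, mulMap_coe]
    ring
  · intro χ χ' h h'
    exact resC_inj (hmon 0) (hmon 1) (hcop 0 1 (by decide)) (hX 0) (hX 1)
      (by omega) χ χ' h h'
  · intro χ χ' h h'
    have h01d : (M 0 * M 1).natDegree = (M 0).natDegree + (M 1).natDegree :=
      (hmon 0).natDegree_mul (hmon 1)
    have hX0 := hX 0
    have hd01 : (M 0 * M 1).natDegree + e = r * d + 1 := by rw [h01d]; omega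
    refine resC_inj ((hmon 0).mul (hmon 1)) (hmon 2)
      (IsCoprime.mul_left (hcop 0 2 (by decide)) (hcop 1 2 (by decide))) hd01 (hX 2)
      (by rw [h01d]; omega) χ χ' ?_ h'
    rw [← resC_comp (le_of_eq ht0) (le_of_eq (hX 0)) (le_of_eq hd01),
      ← resC_comp (le_of_eq ht0) (le_of_eq (hX 0)) (le_of_eq hd01)]
    exact h
  · intro χ; exact hrr 1 0 χ
  · intro χ; exact hrr 2 0 χ
  · rw [resC_one, resC_one, resC_one, nrm_one, nrm_one, nrm_one]; norm_num
  · intro Q hQ
    apply scaling_bound hP _ _ (hn 2)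
    intro h1
    apply hQ
    rw [h1, resC_one, resC_one]
  · rw [resC_one, resC_one]
    exact htb 0
  · rw [resC_one, resC_one]
    exact htb 1
  · rw [resC_one, resC_one]
    exact htb 2

theorem err_bound (hP : Sl P r) {d N : ℕ} (hN : 2 * N ≤ d) (T : Finset (Fin 3 × Fin d))
    (hT : T.card ≤ N)
    (z : Fin 3 × Fin d → Pl) (hz : ∀ a ∈ T, ∀ b ∈ T, a.1 ≠ b.1 → z a ≠ z b) :
    ∑ χ ∈ univ.erase (1 : AddChar (degreeLT K (r * d + 1)) ℂ),
      nrm (gf P r hP.degree (Sf T 0) (nf r T 0) (nf_lt r T 0)) (resX hP T z 0 χ) *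
      nrm (gf P r hP.degree (Sf T 1) (nf r T 1) (nf_lt r T 1)) (resX hP T z 1 χ) *
      nrm (gf P r hP.degree (Sf T 2) (nf r T 2) (nf_lt r T 2)) (resX hP T z 2 χ) ≤
      CP r d * √(CP r d / ((Fintype.card K : ℝ) - 1)) +
        ((1 + ((N : ℝ) ^ 2 * r) * CP r d / (Fintype.card K : ℝ)) ^ 2 - 1) := by
  classical
  -- cardinalities
  have hc : ∀ X : Fin 3, (T.filter (fun a => a.1 = X)).card + (T.filter (fun a => ¬ a.1 = X)).card
      = T.card := fun X => Finset.card_filter_add_card_filter_not _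
  have h3 : (T.filter (fun a => a.1 = 0)).card + (T.filter (fun a => a.1 = 1)).card +
      (T.filter (fun a => a.1 = 2)).card = T.card := by
    rw [Finset.card_filter, Finset.card_filter, Finset.card_filter, ← Finset.sum_add_distrib,
      ← Finset.sum_add_distrib]
    rw [Finset.card_eq_sum_ones]
    apply Finset.sum_congr rfl
    rintro ⟨x, i⟩ _
    fin_cases x <;> simp
  have hS := fun X => Sf_card T X
  have hS0 := hS 0
  have hS1 := hS 1
  have hS2 := hS 2
  have hc0 := hc 0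
  have hc1 := hc 1
  have hc2 := hc 2
  have hmul : ∀ x y : ℕ, x ≤ y → r * x ≤ r * y := fun x y h => Nat.mul_le_mul_left r h
  -- the free parts
  have hd : ∀ Y, r * (T.filter (fun a => a.1 = Y)).card + r * (Sf T Y).card = r * d := fun Y => by
    rw [← mul_add, hS Y]
  have hd0 := hd 0
  have hd1 := hd 1
  have hd2 := hd 2
  have hcr : ∀ Y, r * (T.filter (fun a => a.1 = Y)).card +
      r * (T.filter (fun a => ¬ a.1 = Y)).card = r * T.card := fun Y => by
    rw [← mul_add, hc Y]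
  have h3r : r * (T.filter (fun a => a.1 = 0)).card + r * (T.filter (fun a => a.1 = 1)).card +
      r * (T.filter (fun a => a.1 = 2)).card = r * T.card := by
    rw [← mul_add, ← mul_add, h3]
  have hTd : 2 * (r * T.card) ≤ r * d := by
    have := hmul (2 * T.card) d (by omega)
    calc 2 * (r * T.card) = r * (2 * T.card) := by ring
      _ ≤ r * d := this
  refine err_abs hP (Sf T) (nf r T) (nf_eq r T) (nf_lt r T)
    (fun Y => MT P (T.filter (fun a => a.1 = Y)) z)
    (fun Y => MT_monic hP _ _) ?_ (fun Y => T.filter (fun a => ¬ a.1 = Y)) z (MT P T z) ?_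
    (r * d + 1 - r * T.card)
    (r * d + 1 - r * (T.filter (fun a => a.1 = 0)).card - r * (T.filter (fun a => a.1 = 1)).card)
    (hTX hP T z) ?_ ?_ ?_ ?_ ?_ N ?_
  · intro X Y hXY
    apply MT_coprime hP
    intro a ha b hb
    simp only [mem_filter] at ha hb
    apply hz a ha.1 b hb.1
    rw [ha.2, hb.2]; exact hXY
  · intro Y
    exact Finset.prod_filter_mul_prod_filter_not _ _ _
  · intro Y
    have := hd Y
    have := hcr Y
    rw [MT_natDegree hP, ← nf_eq]
    omega
  · simp only [MT_natDegree hP, ← nf_eq]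
    omega
  · simp only [MT_natDegree hP, ← nf_eq]
    omega
  · simp only [MT_natDegree hP]
    omega
  · intro Y
    have := hd Y
    have := hcr Y
    rw [← nf_eq]
    omega
  · intro Y
    have := hc Y
    omega

theorem count_explicit (hP : Sl P r) {d N : ℕ} (hN : 2 * N ≤ d) (T : Finset (Fin 3 × Fin d))
    (hT : T.card ≤ N)
    (z : Fin 3 × Fin d → Pl) (hz : ∀ a ∈ T, ∀ b ∈ T, a.1 ≠ b.1 → z a ≠ z b) :
    |(∑ z' : Fin 3 × Fin d → Pl, Wt P (T.piecewise z z')) / (Fintype.card Pl : ℝ) ^ (3 * d)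
      - wbar (Fintype.card K) r d| ≤
      (CP r d * √(CP r d / ((Fintype.card K : ℝ) - 1)) +
        ((1 + ((N : ℝ) ^ 2 * r) * CP r d / (Fintype.card K : ℝ)) ^ 2 - 1)) *
      wbar (Fintype.card K) r d := by
  classical
  have hq2 : 2 ≤ Fintype.card K := Fintype.one_lt_card
  set q : ℝ := (Fintype.card K : ℝ) with hqd
  set n : ℝ := (Fintype.card Pl : ℝ) with hnd
  have hn : (0 : ℝ) < n := by rw [hnd]; exact_mod_cast hP.card_pos
  have hq : (0 : ℝ) < q := by rw [hqd]; exact_mod_cast Fintype.card_pos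
  have hq1 : (1 : ℝ) ≤ q - 1 := by
    have : (2 : ℝ) ≤ q := by rw [hqd]; exact_mod_cast hq2
    linarith
  set E := CP r d * √(CP r d / (q - 1)) +
        ((1 + ((N : ℝ) ^ 2 * r) * CP r d / q) ^ 2 - 1) with hE
  have hcard : (Fintype.card (Kˣ × (Fin d → Pl)) : ℝ) = (q - 1) * n ^ d := by
    rw [Fintype.card_prod, Fintype.card_units K]
    push_cast [Nat.cast_sub (by omega : 1 ≤ Fintype.card K)]
    simp [hqd, hnd]
  set S : ℝ := ∑ z' : Fin 3 × Fin d → Pl, Wt P (T.piecewise z z') with hSdef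
  have hmain := main_identity hP T z
  rw [← hSdef, ← hqd] at hmain
  have hterm : ∀ (χ : AddChar (degreeLT K (r * d + 1)) ℂ) (Y : Fin 3),
      ‖∑ ω, χ (vec hP T z Y ω)‖ = ((q - 1) * n ^ d) *
        nrm (gf P r hP.degree (Sf T Y) (nf r T Y) (nf_lt r T Y))
        (resX hP T z Y χ) := by
    intro χ Y
    unfold nrm
    rw [hcard, mul_div_cancel₀]
    · rfl
    · have : 0 < (q - 1) * n ^ d := by
        apply mul_pos (by linarith) (by positivity)
      exact this.ne'
  have hone : ∏ Y : Fin 3, ∑ ω, (1 : AddChar (degreeLT K (r * d + 1)) ℂ) (vec hP T z Y ω) =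
      ((((q - 1) * n ^ d) ^ 3 : ℝ) : ℂ) := by
    simp only [AddChar.one_apply, sum_const, card_univ, nsmul_eq_mul, mul_one, prod_const,
      Fintype.card_fin]
    rw [← hcard]
    push_cast
    rfl
  have hdiff : ‖(((q ^ (r * d + 1) * S - ((q - 1) * n ^ d) ^ 3 : ℝ)) : ℂ)‖ ≤
      ((q - 1) * n ^ d) ^ 3 * E := by
    rw [Complex.ofReal_sub, hmain, ← hone,
      ← Finset.sum_erase_add univ _ (mem_univ (1 : AddChar (degreeLT K (r * d + 1)) ℂ)),
      add_sub_cancel_right]
    refine (norm_sum_le _ _).trans ?_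
    have herr := err_bound hP hN T hT z hz
    rw [← hqd, ← hE] at herr
    have hpos : 0 ≤ ((q - 1) * n ^ d) ^ 3 := by
      have : 0 < (q - 1) * n ^ d := mul_pos (by linarith) (by positivity)
      positivity
    refine le_trans (le_of_eq ?_) (mul_le_mul_of_nonneg_left herr hpos)
    rw [Finset.mul_sum]
    apply Finset.sum_congr rfl
    intro χ _
    rw [norm_prod, Fin.prod_univ_three, hterm, hterm, hterm]
    ring
  rw [Complex.norm_real, Real.norm_eq_abs] at hdiff
  have hw : wbar (Fintype.card K) r d =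
      ((q - 1) * n ^ d) ^ 3 / (q ^ (r * d + 1) * n ^ (3 * d)) := by
    unfold wbar
    rw [← hqd, div_eq_div_iff (by positivity) (by positivity)]
    ring
  have e1 : S / n ^ (3 * d) - wbar (Fintype.card K) r d =
      (q ^ (r * d + 1) * S - ((q - 1) * n ^ d) ^ 3) / (q ^ (r * d + 1) * n ^ (3 * d)) := by
    rw [hw]
    field_simp
  rw [e1, abs_div, abs_of_pos (by positivity : 0 < q ^ (r * d + 1) * n ^ (3 * d)), hw]
  rw [div_le_iff₀ (by positivity)]
  refine hdiff.trans (le_of_eq ?_)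
  field_simp

open Filter Topology in
/-- the count theorem -/
theorem countThm (N d r : ℕ) (h : 3 * N ≤ d) : CountThm N d r := by
  intro ε hε
  have hlim : Tendsto (fun n : ℕ => CP r d * √(CP r d / ((n : ℝ) - 1)) +
        ((1 + ((N : ℝ) ^ 2 * r) * CP r d / (n : ℝ)) ^ 2 - 1)) atTop (𝓝 0) := by
    have hn : Tendsto (fun n : ℕ => (n : ℝ)) atTop atTop := tendsto_natCast_atTop_atTop
    have hn1 : Tendsto (fun n : ℕ => (n : ℝ) - 1) atTop atTop :=
      tendsto_atTop_add_const_right _ _ hn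
    have l1 : Tendsto (fun n : ℕ => CP r d / ((n : ℝ) - 1)) atTop (𝓝 0) :=
      hn1.const_div_atTop _
    have l2 : Tendsto (fun n : ℕ => ((N : ℝ) ^ 2 * r) * CP r d / (n : ℝ)) atTop (𝓝 0) :=
      hn.const_div_atTop _
    have l3 : Tendsto (fun n : ℕ => √(CP r d / ((n : ℝ) - 1))) atTop (𝓝 0) := by
      have := l1.sqrt
      rwa [Real.sqrt_zero] at this
    have l4 := (l3.const_mul (CP r d)).add (((l2.const_add 1).pow 2).sub_const 1)
    simpa using l4
  have hev : ∀ᶠ n : ℕ in atTop, CP r d * √(CP r d / ((n : ℝ) - 1)) +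
        ((1 + ((N : ℝ) ^ 2 * r) * CP r d / (n : ℝ)) ^ 2 - 1) < ε :=
    hlim.eventually (gt_mem_nhds hε)
  obtain ⟨q0, hq0⟩ := Filter.eventually_atTop.1 hev
  refine ⟨q0, ?_⟩
  intro K _ _ _ hK Pl _ _ P hP T hT z hz
  refine (count_explicit hP (by omega) T hT z hz).trans ?_
  have hw : 0 ≤ wbar (Fintype.card K) r d := by
    unfold wbar
    have hq2 : 2 ≤ Fintype.card K := Fintype.one_lt_card
    have : (2 : ℝ) ≤ Fintype.card K := by exact_mod_cast hq2
    have h1 : (0 : ℝ) ≤ (Fintype.card K : ℝ) - 1 := by linarith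
    positivity
  exact mul_le_mul_of_nonneg_right (hq0 _ hK).le hw

end Pool.Agent.T9h59.GD
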