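import Pool.Agent.H39R2.Gon.A2
import Pool.Agent.T9h59.GD.Count

set_option autoImplicit false

/-!
# The finite field theorem for slots
-/

namespace Pool.Agent.T9h59.GD

open H39Gon

open A2 Finset in
/-- A2. -/
theorem FT_of_countThm (m d r : ℕ) (hd : m + 2 ≤ d) (hr : 0 < r)
    (h : CountThm (2 * (m + 2)) d r) : FT m d r := by
  classical
  have hd0 : (0 : ℝ) < d := by
    have : 0 < d := by omega
    exact_mod_cast this
  set C0 : ℝ := (3 * d : ℝ) ^ (m + 2) * 2 ^ (m + 2) with hC0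
  have hC0pos : 0 < C0 := by positivity
  obtain ⟨q1, hq1⟩ := h (1 / (12 * C0)) (by positivity)
  obtain ⟨q2, hq2⟩ := exists_nat_gt (r * (8 * C0 * ((2 * (m + 2) : ℕ) : ℝ) ^ 2))
  refine ⟨max q1 q2, ?_⟩
  intro K _ _ _ hK Pl _ _ P hP Φ hbal hsym hrel
  haveI : Nonempty Pl := Fintype.card_pos_iff.1 hP.card_pos
  by_contra hcon
  push Not at hcon
  obtain ⟨t0, ht0⟩ := hcon
  obtain ⟨t, htmax⟩ := Finite.exists_max (fun t => |Φ t|)
  have hM0 : 0 < |Φ t| := lt_of_lt_of_le (abs_pos.2 ht0) (htmax t0)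
  have hq : (1 : ℝ) < Fintype.card K := by exact_mod_cast Fintype.one_lt_card
  have hw : 0 < wbar (Fintype.card K) r d := by
    unfold wbar
    have : (0 : ℝ) < (Fintype.card K : ℝ) - 1 := by linarith
    positivity
  set w := wbar (Fintype.card K) r d with hwdef
  set ε : ℝ := 1 / (12 * C0) with hε
  have hNQ : NQ (Fin 3 × Fin d) Pl = (Fintype.card Pl : ℝ) ^ (3 * d) := by
    unfold NQ
    simp
  have hNQpos : 0 < NQ (Fin 3 × Fin d) Pl := NQ_pos
  have hT : ∀ T : Finset (Fin 3 × Fin d), T.card ≤ 2 * (m + 2) → ∀ z : Fin 3 × Fin d → Pl,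
      Good (fun a : Fin 3 × Fin d => a.1) T z → |A T (Wt P) z - w| ≤ ε * w := by
    intro T hTc z hz
    have := hq1 K (le_trans (le_max_left _ _) hK) Pl P hP T hTc z hz
    unfold A
    rw [hNQ]
    exact this
  have hW : ∀ z : Fin 3 × Fin d → Pl, 0 ≤ Wt P z := fun z => Nat.cast_nonneg _
  -- the total relation
  have hR : ∀ z : Fin 3 × Fin d → Pl,
      Wt P z * ∑ j : Fin (m + 2) → Fin 3 × Fin d, sg j * Φ (z ∘ j) = 0 := by
    intro z
    by_cases h0 : Wt P z = 0
    · rw [h0, zero_mul]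
    · have hne : Nonempty {l : Fin 3 → Kˣ //
          ∑ X : Fin 3, Polynomial.C (l X : K) * ∏ i : Fin d, P (z (X, i)) = 0} := by
        by_contra hcon
        rw [not_nonempty_iff] at hcon
        apply h0
        unfold Wt
        rw [Nat.card_of_isEmpty]
        simp
      obtain ⟨l, hl⟩ := hne
      have := hrel z ⟨l, hl⟩
      unfold sg
      rw [this, mul_zero]
  have hsum : ∑ j : Fin (m + 2) → Fin 3 × Fin d, sg j *
      ((∑ z : Fin 3 × Fin d → Pl, (Wt P z - w) * hh (kk hd t) t z * Φ (z ∘ j)) +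
        w * ∑ z : Fin 3 × Fin d → Pl, hh (kk hd t) t z * Φ (z ∘ j)) = 0 := by
    have h1 : ∀ j : Fin (m + 2) → Fin 3 × Fin d,
      sg j * ((∑ z : Fin 3 × Fin d → Pl, (Wt P z - w) * hh (kk hd t) t z * Φ (z ∘ j)) +
        w * ∑ z : Fin 3 × Fin d → Pl, hh (kk hd t) t z * Φ (z ∘ j))
      = ∑ z : Fin 3 × Fin d → Pl, hh (kk hd t) t z * (Wt P z * (sg j * Φ (z ∘ j))) := by
      intro j
      rw [mul_sum, ← sum_add_distrib, mul_sum]
      refine sum_congr rfl fun z _ => ?_
      ring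
    rw [sum_congr rfl fun j _ => h1 j, sum_comm]
    refine sum_eq_zero fun z _ => ?_
    rw [← mul_sum, ← mul_sum, hR, mul_zero]
  -- error terms
  set B : ℝ := 2 ^ (m + 2) * (|Φ t| * (NQ (Fin 3 × Fin d) Pl *
    ((3 * ε + 2 * (((2 * (m + 2) : ℕ) : ℝ) ^ 2 / Fintype.card Pl)) * w))) with hB
  have hD : ∀ j : Fin (m + 2) → Fin 3 × Fin d,
      |∑ z : Fin 3 × Fin d → Pl, (Wt P z - w) * hh (kk hd t) t z * Φ (z ∘ j)| ≤ B := by
    intro j
    have := err_j (fun a : Fin 3 × Fin d => a.1) (Wt P (d := d)) hW w ε hw.le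
      (2 * (m + 2)) hT (kk hd t) (kk_inj hd t) t (tst t) (tst_kk hd t)
      (by
        intro i i' hii'
        by_cases h1 : t i = t 0
        · by_cases h2 : t i' = t 0
          · exact absurd (by simp [kk, h1, h2]) hii'
          · rw [h1]; exact fun h => h2 h.symm
        · by_cases h2 : t i' = t 0
          · rw [h2]; exact h1
          · exact absurd (by simp [kk, h1, h2]) hii')
      (univ.image j) (by
        have : (univ.image j).card ≤ m + 2 := by
          simpa using (card_image_le (s := (univ : Finset (Fin (m + 2)))) (f := j))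
        simp only [Fintype.card_fin]
        omega)
      (fun z => Φ (z ∘ j)) (by
        intro z z' hz
        congr 1
        ext i
        exact hz (j i) (mem_image_of_mem j (mem_univ i))) |Φ t| (fun z => htmax _)
    simpa only [Fintype.card_fin] using this
  -- main terms
  have hE : ∑ j : Fin (m + 2) → Fin 3 × Fin d, sg j *
      ∑ z : Fin 3 × Fin d → Pl, hh (kk hd t) t z * Φ (z ∘ j)
      = NQ (Fin 3 × Fin d) Pl * ((∏ i, c1 (kk hd t i).1) * Φ t) *
        ((univ.filter fun σ : Equiv.Perm (Fin (m + 2)) => t (σ 0) = t 0).card : ℝ) := by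
    have h1 : ∑ j : Fin (m + 2) → Fin 3 × Fin d, sg j *
      ∑ z : Fin 3 × Fin d → Pl, hh (kk hd t) t z * Φ (z ∘ j)
      = ∑ j ∈ (univ : Finset (Equiv.Perm (Fin (m + 2)))).image
        (fun σ : Equiv.Perm (Fin (m + 2)) => kk hd t ∘ σ), sg j *
      ∑ z : Fin 3 × Fin d → Pl, hh (kk hd t) t z * Φ (z ∘ j) := by
      symm
      refine sum_subset (subset_univ _) fun j _ hj => ?_
      have : ∃ i0, ∀ i, j i ≠ kk hd t i0 := by
        by_contra hcon
        push Not at hcon
        choose τ hτ using hcon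
        have hτi : Function.Injective τ := by
          intro a b hab
          apply kk_inj hd t
          rw [← hτ a, ← hτ b, hab]
        have hτb : Function.Bijective τ := Finite.injective_iff_bijective.1 hτi
        apply hj
        rw [mem_image]
        refine ⟨(Equiv.ofBijective τ hτb).symm, mem_univ _, ?_⟩
        ext1 i
        simp only [Function.comp]
        rw [← hτ]
        congr 1
        exact (Equiv.ofBijective τ hτb).apply_symm_apply i
      obtain ⟨i0, hi0⟩ := this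
      rw [main_zero (kk hd t) (kk_inj hd t) t i0 (by positivity) (fun z => Φ (z ∘ j)), mul_zero]
      intro z x
      congr 1
      ext i
      simp [Function.update_of_ne (hi0 i)]
    rw [h1, sum_image]
    · have h2 : ∀ σ : Equiv.Perm (Fin (m + 2)), sg (kk hd t ∘ σ) *
          ∑ z : Fin 3 × Fin d → Pl, hh (kk hd t) t z * Φ (z ∘ (kk hd t ∘ σ))
          = if t (σ 0) = t 0 then NQ (Fin 3 × Fin d) Pl * ((∏ i, c1 (kk hd t i).1) * Φ t) else 0 := by
        intro σ
        rw [main_perm (kk hd t) (kk_inj hd t) t (tst t) (tst_kk hd t) σ Φ hbal]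
        split_ifs with hσ
        · rw [← sg_kk hd t Φ hsym σ hσ]
          ring
        · have : sg (kk hd t ∘ σ) = 0 := by
            unfold sg
            simp only [Function.comp]
            rw [c0_kk' hd t (σ 0) hσ, zero_mul]
          rw [this, zero_mul]
      rw [sum_congr rfl fun σ _ => h2 σ, ← sum_filter, sum_const, nsmul_eq_mul]
      ring
    · intro σ _ σ' _ hσ
      ext1 i
      exact kk_inj hd t (congr_fun hσ i)
  have hcard : (1 : ℝ) ≤
      ((univ.filter fun σ : Equiv.Perm (Fin (m + 2)) => t (σ 0) = t 0).card : ℝ) := by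
    have : 0 < (univ.filter fun σ : Equiv.Perm (Fin (m + 2)) => t (σ 0) = t 0).card :=
      card_pos.2 ⟨1, by simp⟩
    exact_mod_cast this
  have hs1 : |∏ i, c1 (kk hd t i).1| = 1 := by
    rw [abs_prod]
    exact prod_eq_one fun i _ => c1_kk hd t i
  have hfin : w * (NQ (Fin 3 × Fin d) Pl * ((∏ i, c1 (kk hd t i).1) * Φ t) *
        ((univ.filter fun σ : Equiv.Perm (Fin (m + 2)) => t (σ 0) = t 0).card : ℝ))
      = - ∑ j : Fin (m + 2) → Fin 3 × Fin d, sg j *
        ∑ z : Fin 3 × Fin d → Pl, (Wt P z - w) * hh (kk hd t) t z * Φ (z ∘ j) := by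
    rw [← hE, eq_neg_iff_add_eq_zero, ← hsum, mul_sum, ← sum_add_distrib]
    refine sum_congr rfl fun j _ => ?_
    ring
  have h3 : w * (NQ (Fin 3 × Fin d) Pl * |Φ t|) ≤ (3 * d : ℝ) ^ (m + 2) * B := by
    calc w * (NQ (Fin 3 × Fin d) Pl * |Φ t|)
        ≤ w * (NQ (Fin 3 × Fin d) Pl * |Φ t|) *
        ((univ.filter fun σ : Equiv.Perm (Fin (m + 2)) => t (σ 0) = t 0).card : ℝ) :=
          le_mul_of_one_le_right (by positivity) hcard
      _ = |w * (NQ (Fin 3 × Fin d) Pl * ((∏ i, c1 (kk hd t i).1) * Φ t) *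
        ((univ.filter fun σ : Equiv.Perm (Fin (m + 2)) => t (σ 0) = t 0).card : ℝ))| := by
          rw [abs_mul, abs_mul, abs_mul, abs_mul, hs1, abs_of_pos hw, abs_of_pos hNQpos,
            Nat.abs_cast]
          ring
      _ = |∑ j : Fin (m + 2) → Fin 3 × Fin d, sg j *
        ∑ z : Fin 3 × Fin d → Pl, (Wt P z - w) * hh (kk hd t) t z * Φ (z ∘ j)| := by
          rw [hfin, abs_neg]
      _ ≤ ∑ j : Fin (m + 2) → Fin 3 × Fin d, |sg j *
        ∑ z : Fin 3 × Fin d → Pl, (Wt P z - w) * hh (kk hd t) t z * Φ (z ∘ j)| :=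
          abs_sum_le_sum_abs _ _
      _ ≤ ∑ j : Fin (m + 2) → Fin 3 × Fin d, B := by
          refine sum_le_sum fun j _ => ?_
          rw [abs_mul]
          calc |sg j| * |∑ z : Fin 3 × Fin d → Pl, (Wt P z - w) * hh (kk hd t) t z * Φ (z ∘ j)|
              ≤ 1 * B := mul_le_mul (abs_sg j) (hD j) (abs_nonneg _) (by norm_num)
            _ = B := one_mul B
      _ = (3 * d : ℝ) ^ (m + 2) * B := by
          rw [sum_const, card_univ, nsmul_eq_mul]
          simp
  have h4 : (3 * d : ℝ) ^ (m + 2) * B = (C0 * (3 * ε + 2 * (((2 * (m + 2) : ℕ) : ℝ) ^ 2 /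
      Fintype.card Pl))) * (w * (NQ (Fin 3 × Fin d) Pl * |Φ t|)) := by
    rw [hB, hC0]
    ring
  have h5 : C0 * (3 * ε + 2 * (((2 * (m + 2) : ℕ) : ℝ) ^ 2 / Fintype.card Pl)) ≤ 1 / 2 := by
    have h6 : C0 * (3 * ε) = 1 / 4 := by
      rw [hε]
      field_simp
      norm_num
    have h7 : (q2 : ℝ) ≤ r * Fintype.card Pl := by
      exact_mod_cast ((le_trans (le_max_right _ _) hK).trans hP.card_ge)
    have hr' : (0 : ℝ) < r := by exact_mod_cast hr
    have hPl' : (0 : ℝ) < Fintype.card Pl := by exact_mod_cast hP.card_pos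
    have h7' : 8 * C0 * ((2 * (m + 2) : ℕ) : ℝ) ^ 2 ≤ Fintype.card Pl :=
      le_of_mul_le_mul_left (hq2.le.trans h7) hr'
    have h8 : C0 * (2 * (((2 * (m + 2) : ℕ) : ℝ) ^ 2 / Fintype.card Pl)) ≤ 1 / 4 := by
      rw [← mul_div_assoc, ← mul_div_assoc, div_le_iff₀ hPl']
      nlinarith
    linarith
  have h9 : 0 < w * (NQ (Fin 3 × Fin d) Pl * |Φ t|) := by positivity
  rw [h4] at h3
  nlinarith



end Pool.Agent.T9h59.GD
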