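import Pool.Agent.H39R2.Gon.B
import Pool.Agent.T9h59.GD.B1
import Pool.Agent.T9h59.GD.FT

set_option autoImplicit false

/-!
# `SpanDual` for `k(x)`, `k` an infinite algebraic extension of `F_p`
-/

namespace Pool.Agent.T9h59.GD

open Polynomial H39Gon H39Gon.TaskB

variable {k : Type} [Field k]

theorem eval₂_xx (c : k) (F : k[X]) : eval₂ (RatFunc.C (K := k)) (xx c) F =
    algebraMap k[X] (RatFunc k) (F.comp (X - C c)) := by
  have h2 : algebraMap k[X] (RatFunc k) (F.comp (X - C c)) =
      ((algebraMap k[X] (RatFunc k)).comp (compRingHom (X - C c))) F := rfl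
  have h3 : ((algebraMap k[X] (RatFunc k)).comp (compRingHom (X - C c))) =
      eval₂RingHom (RatFunc.C (K := k)) (xx c) := by
    apply Polynomial.ringHom_ext
    · intro a
      simp
    · simp [xx]
  rw [h2, h3]
  rfl

/-- evaluation at `1 / (x - c)` -/
theorem sig_eval (c : k) (F : k[X]) :
    eval₂ (RatFunc.C (K := k)) ((xx c)⁻¹) F.reverse * (xx c) ^ F.natDegree =
      algebraMap k[X] (RatFunc k) (F.comp (X - C c)) := by
  have hx : xx c ≠ 0 := xx_ne_zero c
  letI : Invertible (xx c) := invertibleOfNonzero hx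
  have h := eval₂_reverse_mul_pow (RatFunc.C (K := k)) (xx c) F
  rw [invOf_eq_inv] at h
  rw [h, eval₂_xx]

theorem comp_ne_zero (c : k) (F : k[X]) (hF : F ≠ 0) : F.comp (X - C c) ≠ 0 := by
  intro h
  apply hF
  have h1 : (F.comp (X - C c)).comp (X + C c) = F := by
    rw [comp_assoc]; simp
  rw [← h1, h, zero_comp]

theorem sig_inj' (c : k) :
    Function.Injective (eval₂RingHom (RatFunc.C (K := k)) ((xx c)⁻¹)) := by
  rw [injective_iff_map_eq_zero]
  intro P hP
  by_contra hP0
  have hx : (xx c)⁻¹ ≠ 0 := inv_ne_zero (xx_ne_zero c)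
  letI : Invertible ((xx c)⁻¹) := invertibleOfNonzero hx
  have h := (eval₂_reverse_eq_zero_iff (RatFunc.C (K := k)) ((xx c)⁻¹) P).2 hP
  rw [invOf_eq_inv, inv_inv, eval₂_xx] at h
  exact am_ne_zero (comp_ne_zero c _ (by rw [Ne, reverse_eq_zero]; exact hP0)) h

/-- the automorphism `x ↦ 1/(x-c)` (only used as a hom) -/
noncomputable def sig (c : k) : RatFunc k →+* RatFunc k :=
  IsFractionRing.lift (A := k[X]) (K := RatFunc k) (sig_inj' c)

theorem sig_am (c : k) (F : k[X]) : sig c (algebraMap k[X] (RatFunc k) F) =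
    eval₂ (RatFunc.C (K := k)) ((xx c)⁻¹) F := by
  unfold sig
  rw [IsFractionRing.lift_algebraMap]
  rfl

theorem sig_poly (c : k) (f : k[X]) : algebraMap k[X] (RatFunc k) f =
    sig c (algebraMap k[X] (RatFunc k) (taylor c f).reverse) /
      sig c (algebraMap k[X] (RatFunc k) (X ^ f.natDegree)) := by
  have h := sig_eval c (taylor c f)
  have h1 : (taylor c f).comp (X - C c) = f := by
    rw [taylor_apply, comp_assoc]; simp
  rw [h1, natDegree_taylor] at h
  rw [sig_am, sig_am, eval₂_pow, eval₂_X, ← h]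
  have hx : xx c ≠ 0 := xx_ne_zero c
  rw [inv_pow, div_inv_eq_mul]

theorem deg_rev (c : k) (f : k[X]) (hf : f.eval c ≠ 0) :
    (taylor c f).reverse.natDegree = f.natDegree := by
  rw [reverse_natDegree, natDegree_taylor]
  have h : (taylor c f).natTrailingDegree = 0 := by
    rw [natTrailingDegree_eq_zero]
    right
    rw [taylor_coeff_zero]
    exact hf
  rw [h, Nat.sub_zero]

theorem rev_ne (c : k) (f : k[X]) (hf : f ≠ 0) : (taylor c f).reverse ≠ 0 := by
  rw [Ne, reverse_eq_zero]
  intro h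
  apply hf
  have h2 : f = taylor (-c) (taylor c f) := by
    rw [taylor_add_taylor, neg_add_cancel, taylor_zero]
  rw [h2, h, map_zero]

/-- every class is, up to torsion, the image of a class of degree zero -/
theorem transfer (hk : ConstTors k) (c : k) (f1 f2 : k[X]) (h1 : f1 ≠ 0) (h2 : f2 ≠ 0)
    (hc1 : f1.eval c ≠ 0) (hc2 : f2.eval c ≠ 0) :
    ∃ g : Ir k →₀ ℤ, dg g = 0 ∧
      Tors (cl (algebraMap k[X] (RatFunc k) f1 / algebraMap k[X] (RatFunc k) f2) -
        clMap (sig c) (D g)) := by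
  set F1 : k[X] := (taylor c f1).reverse * X ^ f2.natDegree with hF1
  set F2 : k[X] := (taylor c f2).reverse * X ^ f1.natDegree with hF2
  have hX : ∀ n : ℕ, (X ^ n : k[X]) ≠ 0 := fun n => pow_ne_zero _ X_ne_zero
  have hF1n : F1 ≠ 0 := mul_ne_zero (rev_ne c f1 h1) (hX _)
  have hF2n : F2 ≠ 0 := mul_ne_zero (rev_ne c f2 h2) (hX _)
  obtain ⟨g1, hg1, hd1⟩ := decomp_poly hk F1 hF1n
  obtain ⟨g2, hg2, hd2⟩ := decomp_poly hk F2 hF2n
  refine ⟨g1 + -g2, ?_, ?_⟩
  · rw [dg_add, dg_neg, hd1, hd2, hF1, hF2, natDegree_mul (rev_ne c f1 h1) (hX _),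
      natDegree_mul (rev_ne c f2 h2) (hX _), deg_rev c f1 hc1, deg_rev c f2 hc2,
      natDegree_X_pow, natDegree_X_pow]
    push_cast
    ring
  · have e : algebraMap k[X] (RatFunc k) f1 / algebraMap k[X] (RatFunc k) f2 =
        sig c (algebraMap k[X] (RatFunc k) F1 / algebraMap k[X] (RatFunc k) F2) := by
      rw [sig_poly c f1, sig_poly c f2, map_div₀, hF1, hF2, map_mul, map_mul, map_mul, map_mul]
      have hs : ∀ F : k[X], F ≠ 0 → sig c (algebraMap k[X] (RatFunc k) F) ≠ 0 := fun F hF => by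
        rw [Ne, map_eq_zero]; exact am_ne_zero hF
      have a1 := hs _ (rev_ne c f1 h1)
      have a2 := hs _ (rev_ne c f2 h2)
      have a3 := hs _ (hX f1.natDegree)
      have a4 := hs _ (hX f2.natDegree)
      field_simp
    rw [e, ← clMap_cl, cl_div (am_ne_zero hF1n) (am_ne_zero hF2n), ← map_sub]
    apply Tors.map
    rw [D_add, D_neg]
    have h4 := hg1.sub hg2
    convert h4 using 1
    unfold pc
    abel

/-- `SpanDual` for `k(x)`. -/
theorem spanDual_of_FT (k : Type) [Field k] [Infinite k] (p : ℕ) [Fact p.Prime]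
    [Algebra (ZMod p) k] [Algebra.IsAlgebraic (ZMod p) k] (m : ℕ)
    (h : ∀ r : ℕ, 0 < r → ∃ d, FT m d r) : SpanDual (RatFunc k) m := by
  classical
  -- finite subfields
  have hfin : ∀ S : Finset k, ∃ (K : Type) (_ : Field K) (_ : Fintype K) (ι : K →+* k),
      (∀ a ∈ S, ∃ b, ι b = a) ∧ S.card ≤ Fintype.card K := by
    intro S
    have hfd : FiniteDimensional (ZMod p) (IntermediateField.adjoin (ZMod p) (S : Set k)) :=
      IntermediateField.finiteDimensional_adjoin
        (fun x _ => (Algebra.IsAlgebraic.isAlgebraic x).isIntegral)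
    have hF : Finite (IntermediateField.adjoin (ZMod p) (S : Set k)) :=
      Module.finite_of_finite (ZMod p)
    let _ : Fintype (IntermediateField.adjoin (ZMod p) (S : Set k)) := Fintype.ofFinite _
    refine ⟨IntermediateField.adjoin (ZMod p) (S : Set k), inferInstance, inferInstance,
      algebraMap _ k, ?_, ?_⟩
    · intro a ha
      exact ⟨⟨a, IntermediateField.subset_adjoin _ _ ha⟩, rfl⟩
    · rw [← Fintype.card_coe S]
      exact Fintype.card_le_of_injective
        (fun a : S => (⟨a.1, IntermediateField.subset_adjoin _ _ a.2⟩ :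
          IntermediateField.adjoin (ZMod p) (S : Set k)))
        (by
          intro a b hab
          apply Subtype.ext
          exact congrArg (fun x : IntermediateField.adjoin (ZMod p) (S : Set k) => (x : k)) hab)
  have hk : ConstTors k := by
    intro c hc
    obtain ⟨K, _, _, ι, hι, -⟩ := hfin {c}
    obtain ⟨b, hb⟩ := hι c (by simp)
    have hb0 : b ≠ 0 := by
      rintro rfl
      exact hc (by rw [← hb, map_zero])
    have h1 : 0 < Fintype.card K - 1 := by
      have := Fintype.one_lt_card (α := K)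
      omega
    exact ⟨Fintype.card K - 1, h1, by
      rw [← hb, ← map_pow, FiniteField.pow_card_sub_one_eq_one b hb0, map_one]⟩
  -- degree zero
  have hdeg : ∀ Q : MultilinearMap ℤ (fun _ : Fin (m + 1) => UV (RatFunc k))
      (UV (RatFunc k) →ₗ[ℤ] ℚ),
      (∀ f : RatFunc k, f ≠ 0 → f ≠ 1 → Q (fun _ => cl f) (cl (1 - f)) = 0) →
      ∀ g h : Ir k →₀ ℤ, dg g = 0 → dg h = 0 → Q (fun _ => D g) (D h) = 0 := by
    intro Q hQ g g' hg hg'
    -- the degrees
    set U : Finset (Ir k) := g.support ∪ g'.support with hU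
    set r : ℕ := ∏ π ∈ U, π.1.natDegree with hr
    have hr0 : 0 < r := Finset.prod_pos fun π _ => π.2.2.natDegree_pos
    obtain ⟨d, q0, hq0⟩ := h r hr0
    obtain ⟨S, hS, hScard⟩ := Infinite.exists_superset_card_eq
      (U.biUnion (fun π => π.1.coeffs))
      (max (U.biUnion (fun π => π.1.coeffs)).card q0) (le_max_left _ _)
    obtain ⟨K, _, _, ι, hι, hcard⟩ := hfin S
    haveI : Finite (PI K r) := PI_finite r hr0
    haveI : Fintype (PI K r) := Fintype.ofFinite _
    have hsl := sl (K := K) r hr0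
    have hlift : ∀ π ∈ U, ∃ a : PI K r, a.1.map ι = π.1 := by
      intro π hπ
      have h1 : π.1 ∈ lifts ι := by
        rw [lifts_iff_coeff_lifts]
        intro n
        by_cases h0 : π.1.coeff n = 0
        · exact ⟨0, by rw [map_zero, h0]⟩
        · apply hι
          apply hS
          rw [Finset.mem_biUnion]
          exact ⟨π, hπ, coeff_mem_coeffs h0⟩
      obtain ⟨q, hq⟩ := (mem_lifts _).1 h1
      have hqm : q.Monic := by
        have := π.2.1
        rw [← hq] at this
        exact monic_of_injective ι.injective this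
      have hqi : Irreducible q := hqm.irreducible_of_irreducible_map ι q (by
        rw [hq]; exact π.2.2)
      refine ⟨⟨q, hqm, hqi, ?_⟩, hq⟩
      have h2 : q.natDegree = π.1.natDegree := by rw [← hq, natDegree_map]
      rw [h2]
      exact Finset.dvd_prod_of_mem _ hπ
    have hcore := core hk (pw r) hsl.monic ι
      (hq0 K (le_trans (by rw [hScard]; exact le_max_right _ _) hcard) (PI K r) (pw r) hsl) Q hQ
    obtain ⟨G, hG0, hG⟩ := smul_D ι r hr0 g
      (fun π hπ => hlift π (Finset.mem_union_left _ hπ))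
    obtain ⟨G', hG'0, hG'⟩ := smul_D ι r hr0 g'
      (fun π hπ => hlift π (Finset.mem_union_right _ hπ))
    have h1 := deg_zero (pw r) ι Q hcore hsl.card_pos G G' (by rw [hG0, hg]) (by rw [hG'0, hg'])
    rw [← hG, ← hG'] at h1
    have h2 : Q (fun _ => r • D g) = (∏ _i : Fin (m + 1), (r : ℤ)) • Q (fun _ => D g) := by
      rw [← MultilinearMap.map_smul_univ]
      simp
    rw [h2, LinearMap.smul_apply, map_nsmul] at h1
    have h3 : (r : ℤ) ≠ 0 := by exact_mod_cast hr0.ne'
    rw [smul_eq_zero, smul_eq_zero] at h1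
    rcases h1 with h1 | h1 | h1
    · exact absurd h1 (Finset.prod_ne_zero_iff.2 (fun _ _ => h3))
    · exact absurd h1 hr0.ne'
    · exact h1
  intro Q hQ s v
  obtain ⟨f, hf, rfl⟩ := exists_cl s
  obtain ⟨f', hf', rfl⟩ := exists_cl v
  -- a point outside all divisors
  obtain ⟨c, hc⟩ : ∃ c : k, (f.num * f.denom * (f'.num * f'.denom)).eval c ≠ 0 := by
    by_contra hcon
    push Not at hcon
    have h0 : f.num * f.denom * (f'.num * f'.denom) = 0 :=
      Polynomial.funext fun c => by rw [hcon c, eval_zero]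
    exact (mul_ne_zero (mul_ne_zero (RatFunc.num_ne_zero hf) (RatFunc.denom_ne_zero f))
      (mul_ne_zero (RatFunc.num_ne_zero hf') (RatFunc.denom_ne_zero f'))) h0
  simp only [eval_mul] at hc
  have hc1 : f.num.eval c ≠ 0 := fun h => hc (by rw [h]; ring)
  have hc2 : f.denom.eval c ≠ 0 := fun h => hc (by rw [h]; ring)
  have hc3 : f'.num.eval c ≠ 0 := fun h => hc (by rw [h]; ring)
  have hc4 : f'.denom.eval c ≠ 0 := fun h => hc (by rw [h]; ring)
  obtain ⟨g, hg0, hg⟩ := transfer hk c f.num f.denom (RatFunc.num_ne_zero hf)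
    (RatFunc.denom_ne_zero f) hc1 hc2
  obtain ⟨g', hg'0, hg'⟩ := transfer hk c f'.num f'.denom (RatFunc.num_ne_zero hf')
    (RatFunc.denom_ne_zero f') hc3 hc4
  rw [RatFunc.num_div_denom] at hg hg'
  set Q' : MultilinearMap ℤ (fun _ : Fin (m + 1) => UV (RatFunc k)) (UV (RatFunc k) →ₗ[ℤ] ℚ) :=
    (LinearMap.lcomp ℤ ℚ (clMap (sig c))).compMultilinearMap
      (Q.compLinearMap (fun _ => clMap (sig c))) with hQ'
  have hQ'a : ∀ s v, Q' (fun _ => s) v = Q (fun _ => clMap (sig c) s) (clMap (sig c) v) :=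
    fun s v => rfl
  have h1 := hdeg Q' (by
    intro f hf0 hf1
    rw [hQ'a, clMap_cl, clMap_cl, map_sub, map_one]
    apply hQ
    · rw [Ne, map_eq_zero]; exact hf0
    · intro h
      exact hf1 ((sig c).injective (by rw [h, map_one]))) g g' hg0 hg'0
  rw [hQ'a] at h1
  rw [Q_eq_of_tors Q _ _ _ _ hg hg', h1]

theorem spanDual (k : Type) [Field k] [Infinite k] (p : ℕ) [Fact p.Prime]
    [Algebra (ZMod p) k] [Algebra.IsAlgebraic (ZMod p) k] (m : ℕ) : SpanDual (RatFunc k) m := by
  apply spanDual_of_FT k p m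
  intro r hr
  refine ⟨3 * (2 * (m + 2)), ?_⟩
  exact FT_of_countThm m _ r (by omega) hr (countThm _ _ r le_rfl)

end Pool.Agent.T9h59.GD
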