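import Pool.Agent.T9h59.GD.B2
import Pool.Agent.T9h59.GC.DOne
import Pool.Agent.TH358.MD.Weight

set_option autoImplicit false

/-!
# Fields which are directed unions of rational function fields
-/

namespace Pool.Agent.T9h59.GD

open H39Gon H39Gon.TaskB Pool.Agent.TH358.MC Pool.Agent.TH358.MD

/-- Every finite subset of `F` is contained in a subfield of `F` isomorphic to `k(x)` for some
infinite algebraic extension `k` of `F_p` (which may depend on the subset). -/
def LocRat (p : ℕ) [Fact p.Prime] (F : Type) [Field F] : Prop :=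
  ∀ S : Finset F, ∃ (k : Type) (_ : Field k) (_ : Algebra (ZMod p) k) (φ : RatFunc k →+* F),
    Infinite k ∧ Algebra.IsAlgebraic (ZMod p) k ∧ ∀ a ∈ S, ∃ b, φ b = a

theorem locRat_ratFunc (p : ℕ) [Fact p.Prime] (k : Type) [Field k] [Infinite k]
    [Algebra (ZMod p) k] [Algebra.IsAlgebraic (ZMod p) k] : LocRat p (RatFunc k) :=
  fun _ => ⟨k, inferInstance, inferInstance, RingHom.id _, inferInstance, inferInstance,
    fun a _ => ⟨a, rfl⟩⟩

/-- the perfect closure of `k(x)` -/
theorem locRat_perfect (p : ℕ) [Fact p.Prime] (k : Type) [Field k] [Infinite k]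
    [Algebra (ZMod p) k] [Algebra.IsAlgebraic (ZMod p) k] (F : Type) [Field F] [CharP F p]
    (φ : RatFunc k →+* F) (hF : ∀ a : F, ∃ (n : ℕ) (b : RatFunc k), a ^ p ^ n = φ b)
    (hp : ∀ a : F, ∃ b : F, b ^ p = a) : LocRat p F := by
  classical
  intro S
  have : ExpChar F p := expChar_prime F p
  have : PerfectRing F p := by
    apply PerfectRing.ofSurjective
    intro a
    obtain ⟨b, hb⟩ := hp a
    exact ⟨b, hb⟩
  choose n b hb using hF
  set N := S.sup n with hN
  let ψ : RatFunc k →+* F := ((iterateFrobeniusEquiv F p N).symm : F →+* F).comp φ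
  refine ⟨k, inferInstance, inferInstance, ψ, inferInstance, inferInstance, fun a ha => ?_⟩
  have hle : n a ≤ N := Finset.le_sup ha
  refine ⟨b a ^ p ^ (N - n a), ?_⟩
  change (iterateFrobeniusEquiv F p N).symm (φ (b a ^ p ^ (N - n a))) = a
  rw [RingEquiv.symm_apply_eq, iterateFrobeniusEquiv_apply, iterateFrobenius_def, map_pow, ← hb,
    ← pow_mul, ← pow_add, Nat.add_sub_cancel' hle]

/-- increasing unions of rational function fields, for example the union of the `k(x^(1/n!))` -/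
theorem locRat_tower (p : ℕ) [Fact p.Prime] (k : ℕ → Type) [∀ n, Field (k n)]
    [∀ n, Infinite (k n)] [∀ n, Algebra (ZMod p) (k n)]
    [∀ n, Algebra.IsAlgebraic (ZMod p) (k n)] (F : Type) [Field F]
    (φ : ∀ n, RatFunc (k n) →+* F) (hmono : ∀ n, (φ n).range ≤ (φ (n + 1)).range)
    (hcov : ∀ a : F, ∃ n, a ∈ (φ n).range) : LocRat p F := by
  classical
  intro S
  have hm : Monotone fun n => (φ n).range := monotone_nat_of_le_succ hmono
  choose n hn using hcov
  exact ⟨k (S.sup n), inferInstance, inferInstance, φ (S.sup n), inferInstance, inferInstance,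
    fun a ha => hm (Finset.le_sup ha) (hn a)⟩

theorem spanDual_of_locRat (p : ℕ) [Fact p.Prime] (F : Type) [Field F] (hF : LocRat p F)
    (m : ℕ) : SpanDual F m := by
  classical
  intro Q hQ s v
  obtain ⟨f, hf, rfl⟩ := exists_cl s
  obtain ⟨f', hf', rfl⟩ := exists_cl v
  obtain ⟨k, _, _, φ, h1, h2, h3⟩ := hF {f, f'}
  obtain ⟨b, hb⟩ := h3 f (by simp)
  obtain ⟨b', hb'⟩ := h3 f' (by simp)
  set Q' : MultilinearMap ℤ (fun _ : Fin (m + 1) => UV (RatFunc k)) (UV (RatFunc k) →ₗ[ℤ] ℚ) :=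
    (LinearMap.lcomp ℤ ℚ (clMap φ)).compMultilinearMap
      (Q.compLinearMap (fun _ => clMap φ)) with hQ'
  have hQ'a : ∀ s v, Q' (fun _ => s) v = Q (fun _ => clMap φ s) (clMap φ v) :=
    fun s v => rfl
  have h4 := spanDual k p m Q' (by
    intro g hg0 hg1
    rw [hQ'a, clMap_cl, clMap_cl, map_sub, map_one]
    apply hQ
    · rw [Ne, map_eq_zero]; exact hg0
    · intro h
      exact hg1 (φ.injective (by rw [h, map_one]))) (cl b) (cl b')
  rw [hQ'a, clMap_cl, clMap_cl, hb, hb'] at h4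
  exact h4

/-- the depth one case from `SpanDual` -/
theorem D_one_of_spanDual {F : Type} [Field F] {C : Type} [AddCommGroup C] [Module ℚ C]
    (M : MotivicInt C F) (hsd : ∀ m, SpanDual F m) : M.toLieCoalg.D 1 = mpl M 1 := by
  rw [mpl_one]
  exact GC.D_one_total' (toML M) hsd

theorem all_depths (p : ℕ) [Fact p.Prime] {F : Type} [Field F] [CharP F p]
    (hsd : ∀ m, SpanDual F m) {C : Type} [AddCommGroup C] [Module ℚ C]
    (M : MotivicInt C F) (j : ℕ) (hj : 1 ≤ j) :
    M.toLieCoalg.D j = mpl M j ∧ M.toLieCoalg.D j = mplO M j ∧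
      ∀ n : ℕ, 1 ≤ n → M.toLieCoalg.D j ⊓ M.W n = Submodule.span ℚ
        {c | ∃ a : ℕ → F, a 0 = 0 ∧ a 1 ≠ 0 ∧ a (n + 1) = 1 ∧ dep n a ≤ j ∧
          (∃ s, (∀ t, 2 ≤ t → t ≤ s → a t = 0) ∧ ∀ t, s < t → t ≤ n → a t ≠ 0) ∧
          c = M.I n a} := by
  have h1 := D_one_of_spanDual M hsd
  have h2 := D_eqO M p h1 j hj
  refine ⟨D_eq M p h1 j hj, h2, fun n hn => ?_⟩
  rw [← mplO_weight M j n hn]
  exact congrArg (fun U => U ⊓ M.W n) h2

end Pool.Agent.T9h59.GD
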